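import Pool.Agent.Helper70K1.PP.Bias
import Pool.Agent.NPC.Defs

/-!
# Parity predictable languages
-/

set_option autoImplicit false

namespace Pool.Agent.Helper70K1.PP

open Pool.Agent.NPC

open Classical in
/-- A language `L` is parity predictable if for a polynomial `P` a function `g`, computable in
polynomial time, gets a list `xs` of at least `P(n)` strings of length at most `n` and gives a
nonempty list `E` of statements `(s, b)`. Here `s` is a list of booleans, as long as `xs`, not all of
them `false`; it selects the strings `x` in `xs` at the positions where it has `true`. The statement
says that the parity of the number of the selected strings that are in `L` is `b` (`true`: odd). The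
fraction of the correct statements among the members of `E` is at least `1/2 + 1/P(n)`. -/
def ParityPredictable (L : Set (List Bool)) : Prop :=
  ∃ (P : Polynomial ℕ) (g : List Bool → List (List Bool × Bool)),
    PolyTime (fun x => bits (g x)) ∧
    ∀ (n : ℕ) (xs : List (List Bool)), (∀ x ∈ xs, x.length ≤ n) → P.eval n ≤ xs.length →
      g (bits xs) ≠ [] ∧
      (∀ e ∈ g (bits xs), e.1.length = xs.length ∧ true ∈ e.1) ∧
      (P.eval n + 2) * (g (bits xs)).length ≤
        2 * P.eval n * ((g (bits xs)).filter (holds (xs.map fun x => decide (x ∈ L)))).length

end Pool.Agent.Helper70K1.PP
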