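import Pool.Agent.Helper70K1.PP.LangP
import Pool.Agent.Helper70K1.PP.Defs

/-!
# Parity predictable languages and polynomial space
-/

set_option autoImplicit false

namespace Pool.Agent.Helper70K1.PP

open Pool.Agent.NPC
open Pool.Agent.Helper70K1.SP
open Pool.Agent.H623R2.PS (evq InPSPACE PSPACEHard poly_replicate)
open Pool.Agent.H656R2.AK (evc QF QFwf qbf_hard)

/-- The bound for the size of the queries. -/
noncomputable def PN : Polynomial ℕ :=
  Polynomial.C 8 * Polynomial.X * Polynomial.X + Polynomial.C 1000 * Polynomial.X +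
    Polynomial.C 200

/-- The number of queries in a list. -/
noncomputable def PE (P : Polynomial ℕ) : Polynomial ℕ := P.comp PN + PN + Polynomial.C 1

/-- The bound for the number of candidates. -/
noncomputable def PKP (P : Polynomial ℕ) : Polynomial ℕ :=
  PE P ^ 2 * (Polynomial.C 4 * PE P ^ 2 + Polynomial.C 1) ^ 2

/-- The lower bound for the modulus. -/
noncomputable def PMP (P : Polynomial ℕ) : Polynomial ℕ :=
  PKP P * PKP P * Polynomial.X + Polynomial.X + Polynomial.C 2

/-- The upper bound for the modulus. -/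
noncomputable def PDP (P : Polynomial ℕ) : Polynomial ℕ :=
  Polynomial.C 2 * PMP P + Polynomial.C 1

theorem PN_eval (m : ℕ) : PN.eval m = 8 * m * m + 1000 * m + 200 := by simp [PN]

theorem PE_eval (P : Polynomial ℕ) (m : ℕ) :
    (PE P).eval m = P.eval (PN.eval m) + PN.eval m + 1 := by
  simp [PE, Polynomial.eval_comp]

/-- The number of bits. -/
def rrP (M : ℕ) : ℕ := (2 * M ^ 2).size

/-- The number of candidates. -/
def nnP (M : ℕ) : ℕ := M ^ 2 * 4 ^ rrP M

theorem rrP_spec {M : ℕ} (hM : 0 < M) : 0 < rrP M ∧ 2 * M ^ 2 ≤ 2 ^ rrP M ∧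
    2 ^ rrP M ≤ 4 * M ^ 2 + 1 := by
  have h1 : 0 < 2 * M ^ 2 := by positivity
  refine ⟨Nat.size_pos.2 h1, (Nat.lt_size_self _).le, ?_⟩
  have := two_pow_size_le (2 * M ^ 2)
  unfold rrP
  omega

theorem nnP_le {M : ℕ} (hM : 0 < M) : nnP M ≤ M ^ 2 * (4 * M ^ 2 + 1) ^ 2 := by
  have h1 : (4 : ℕ) ^ rrP M = (2 ^ rrP M) ^ 2 := by
    rw [← pow_mul, mul_comm, pow_mul]
    norm_num
  unfold nnP
  rw [h1]
  exact Nat.mul_le_mul_left _ (Nat.pow_le_pow_left (rrP_spec hM).2.2 _)

theorem nnP_pos {M : ℕ} (hM : 0 < M) : 0 < nnP M := by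
  unfold nnP
  positivity

/-- The parameters fit. -/
theorem param_okP {M μ : ℕ} (hM : 0 < M) (h : μ ≤ M) :
    2 * (2 * nnP M * (2 * nnP M) * μ + 1 + 4) ^ 2 + 1 ≤ 2 ^ (rrP M * cc) := by
  obtain ⟨h1, h2, _⟩ := rrP_spec hM
  set R := 2 ^ rrP M with hR
  have h4 : (4 : ℕ) ^ rrP M = R * R := by
    rw [hR, ← mul_pow]
    norm_num
  have hR2 : 2 ≤ R := by
    calc 2 = 2 ^ 1 := by norm_num
      _ ≤ 2 ^ rrP M := Nat.pow_le_pow_right (by norm_num) h1
  have hMR : M ^ 2 ≤ R := by omega
  have hM2 : M ≤ M ^ 2 := Nat.le_self_pow (by norm_num) _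
  have hN : 2 * nnP M ≤ R ^ 3 := by
    unfold nnP
    rw [h4]
    calc 2 * (M ^ 2 * (R * R)) = (2 * M ^ 2) * (R * R) := by ring
      _ ≤ R * (R * R) := Nat.mul_le_mul_right _ h2
      _ = R ^ 3 := by ring
  have h5 : 2 * nnP M * (2 * nnP M) * μ + 1 + 4 ≤ R ^ 10 := by
    have h6 : 2 * nnP M * (2 * nnP M) * μ ≤ R ^ 3 * R ^ 3 * R :=
      Nat.mul_le_mul (Nat.mul_le_mul hN hN) (by omega)
    have h7 : R ^ 3 * R ^ 3 * R = R ^ 7 := by ring
    have h8 : 2 ^ 3 ≤ R ^ 3 := Nat.pow_le_pow_left hR2 3
    have h9 : R ^ 10 = R ^ 7 * R ^ 3 := by ring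
    have h10 : 1 ≤ R ^ 7 := Nat.one_le_pow _ _ (by omega)
    nlinarith
  have h6 : (2 * nnP M * (2 * nnP M) * μ + 1 + 4) ^ 2 ≤ R ^ 20 := by
    calc _ ≤ (R ^ 10) ^ 2 := Nat.pow_le_pow_left h5 2
      _ = R ^ 20 := by ring
  have h7 : 2 ^ (rrP M * cc) = R ^ 20 * R ^ 4 := by
    rw [pow_mul, ← hR, ← pow_add, cc]
  have h8 : 2 ^ 4 ≤ R ^ 4 := Nat.pow_le_pow_left hR2 4
  have h9 : 1 ≤ R ^ 20 := Nat.one_le_pow _ _ (by omega)
  rw [h7]
  nlinarith

/-- The candidates. -/
noncomputable def cdP (g : List Bool → List (List Bool × Bool)) (P : Polynomial ℕ) (I : Ins) :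
    List (List ℕ) :=
  ((listP g (fun j q t i => bits ((I, j, q, findF (rrP ((PE P).eval I.m)), t, i) : QryP))
    ((PE P).eval I.m) (nnP ((PE P).eval I.m)) (rrP ((PE P).eval I.m))
    (findF (rrP ((PE P).eval I.m))) (I.m * I.m)).map (cf I.m)).filter
      fun cs => cs.all fun a => decide (a ≤ I.p)

theorem PE_pos (P : Polynomial ℕ) (m : ℕ) : 0 < (PE P).eval m := by
  rw [PE_eval]
  omega

theorem mm_le_PE (P : Polynomial ℕ) (m : ℕ) : m * m ≤ (PE P).eval m := by
  rw [PE_eval, PN_eval]
  nlinarith

theorem length_cdP_le (g : List Bool → List (List Bool × Bool)) (P : Polynomial ℕ) (I : Ins) :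
    (cdP g P I).length ≤ (PKP P).eval I.m := by
  unfold cdP
  refine (List.length_filter_le _ _).trans ?_
  rw [List.length_map]
  refine (length_listP (nnP_pos (PE_pos P I.m)) _).trans ?_
  refine (nnP_le (PE_pos P I.m)).trans (le_of_eq ?_)
  simp [PKP]

theorem cdP_spec (g : List Bool → List (List Bool × Bool)) (P : Polynomial ℕ) (I : Ins) :
    ∀ cs ∈ cdP g P I, cs.length = I.m ∧ ∀ a ∈ cs, a ≤ I.p := by
  intro cs hcs
  rw [cdP, List.mem_filter, List.mem_map, List.all_eq_true] at hcs
  obtain ⟨⟨V, _, rfl⟩, h⟩ := hcs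
  exact ⟨cf_length _ _, fun a ha => by simpa using h a ha⟩

theorem sz_queryP {m p r j q t i' i : ℕ} {F : List (List (Bool × ℕ))} {os : List Op} {rl : List ℕ}
    {f : List Bool} (hp : p < 2 ^ m) (hF : sz F ≤ m) (hos : sz os ≤ m) (hr : rl.length ≤ m)
    (hr2 : ∀ a ∈ rl, a ≤ p) (hi : i < m) (hj : j ≤ m * m) (hrm : r ≤ m) (hm : 1 ≤ m)
    (hq : q < 2 ^ (r * cc)) (hf : f.length = r) (ht : t < 2 ^ (r * (2 * cc))) (hi' : i' < 2 ^ r) :
    sz ((((List.replicate m (), p, F, os, rl, i) : Ins), j, q, f, t, i') : QryP) ≤ PN.eval m := by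
  have h3 : sz rl ≤ m * (4 * m + 2) + 1 := by
    refine (sz_le_length_mul rl (4 * m + 1) fun a ha => sz_lt_two_pow (by
      have := hr2 a ha
      omega)).trans ?_
    exact Nat.add_le_add_right (Nat.mul_le_mul_right _ hr) _
  have h4 := sz_lt_two_pow (a := i) (m := m) (hi.trans Nat.lt_two_pow_self)
  have h5 := sz_lt_two_pow hp
  have h6 : sz j ≤ 4 * (m * m) + 1 := by
    have h7 := sz_nat_le j
    have h8 := Poly.size_le_self j
    omega
  have h7 := sz_lt_two_pow hq
  have h8 := sz_lt_two_pow ht
  have h9 := sz_lt_two_pow hi'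
  have h10 : sz f ≤ 4 * r + 1 := by
    have := sz_listBool_le f
    omega
  simp only [sz_pair, sz_replicate, PN_eval, cc] at *
  nlinarith

theorem collapse_of_predictable (h : ParityPredictable LP) {L : Set (List Bool)}
    (hL : InPSPACE L) : InP L := by
  classical
  obtain ⟨P, gg, hgg, hpred⟩ := h
  obtain ⟨g, hg, hgwf, hgL⟩ := qbf_hard hL
  -- the size parameter
  have hbig : NPC.Poly (fun x : List Bool => ((g x).2, (opsQ (g x).1.length 0 (g x).1,
      (g x).1))) := by
    have h1 : NPC.Poly (fun x : List Bool => (g x).1) := NPC.Poly.fst hg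
    have h2 := poly_opsQ h1
    fun_prop
  obtain ⟨r1, hr1⟩ := hbig.sz_le
  obtain ⟨c0, hc0⟩ := poly_lt_two_pow (PDP P + Polynomial.C 2 * PE P ^ 2)
  set mm : List Bool → ℕ := fun x => r1.eval (4 * x.length + 1) + 10 + c0 with hmm
  have hmmU : UPoly mm := by
    refine UPoly.add (UPoly.add ?_ (UPoly.const 10)) (UPoly.const c0)
    exact (UPoly.add (UPoly.mul (UPoly.const 4) (UPoly.length NPC.Poly.id))
      (UPoly.const 1)).eval r1
  set pp : List Bool → ℕ := fun x => findP ((PMP P).eval (mm x)) - 1 with hpp
  have hppP : NPC.Poly pp := by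
    have := poly_findP (hmmU.eval (PMP P))
    fun_prop
  set WW : List Bool → List Unit := fun x => List.replicate (mm x) () with hWW
  have hWWP : NPC.Poly WW := hmmU
  have hWWl : ∀ x, (WW x).length = mm x := fun x => by rw [hWW]; simp
  set rr : List Bool → List ℕ := fun x => List.replicate (g x).1.length 0 with hrr
  have hrrP : NPC.Poly rr := poly_replicate (UPoly.length (NPC.Poly.fst hg)) 0
  set dec : List Bool → Bool := fun x => decide (runG (pp x) ((PDP P).eval (mm x))
    (fun r => leafN (pp x) (g x).2 r) (fun o y u w => combN (pp x) o y u w)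
    (fun os r i => cdP gg P (WW x, pp x, (g x).2, os, r, i)) (opsQ (g x).1.length 0 (g x).1) (rr x) %
      (pp x + 1) = 1) with hdec
  have hdecP : NPC.Poly dec := by
    have hI : NPC.Poly (fun x : List Bool × List Op × List ℕ × ℕ =>
        ((WW x.1, pp x.1, (g x.1).2, x.2.1, x.2.2.1, x.2.2.2) : Ins)) := by
      have := hWWP.comp (f := fun x : List Bool × List Op × List ℕ × ℕ => x.1)
        (NPC.Poly.fst NPC.Poly.id)
      fun_prop
    have hmU := uPoly_m hI
    have hMU := hmU.eval (PE P)
    have hM2U : UPoly (fun x : List Bool × List Op × List ℕ × ℕ => 2 * ((PE P).eval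
        (Ins.m (WW x.1, pp x.1, (g x.1).2, x.2.1, x.2.2.1, x.2.2.2))) ^ 2) := by
      have := hMU.eval (Polynomial.C 2 * Polynomial.X ^ 2)
      simpa using this
    have hrU : UPoly (fun x : List Bool × List Op × List ℕ × ℕ => rrP ((PE P).eval
        (Ins.m (WW x.1, pp x.1, (g x.1).2, x.2.1, x.2.2.1, x.2.2.2)))) := upoly_size hM2U
    have hRB : RB (fun x : List Bool × List Op × List ℕ × ℕ => rrP ((PE P).eval
        (Ins.m (WW x.1, pp x.1, (g x.1).2, x.2.1, x.2.2.1, x.2.2.2)))) := by
      refine ⟨hrU, UPoly.of_le (poly_pow2 hrU) (UPoly.add (UPoly.mul (UPoly.const 2) hM2U)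
        (UPoly.const 1)) fun x => ?_⟩
      refine (rrP_spec (PE_pos _ _)).2.2.trans (le_of_eq ?_)
      ring
    have hNU : UPoly (fun x : List Bool × List Op × List ℕ × ℕ => nnP ((PE P).eval
        (Ins.m (WW x.1, pp x.1, (g x.1).2, x.2.1, x.2.2.1, x.2.2.2)))) := by
      have h1 := (hMU.eval (Polynomial.X ^ 2)).mul hRB.four
      unfold nnP
      simpa using h1
    have hFP := poly_findF hRB.hr hRB.h1
    have hcdP : NPC.Poly (fun x : List Bool × List Op × List ℕ × ℕ =>
        cdP gg P (WW x.1, pp x.1, (g x.1).2, x.2.1, x.2.2.1, x.2.2.2)) := by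
      unfold cdP
      refine NPC.Poly.filter (p := fun (x : List Bool × List Op × List ℕ × ℕ) cs =>
        cs.all fun a => decide (a ≤ Ins.p (WW x.1, pp x.1, (g x.1).2, x.2.1, x.2.2.1, x.2.2.2)))
        (NPC.Poly.map (F := fun (x : List Bool × List Op × List ℕ × ℕ) V =>
          cf (Ins.m (WW x.1, pp x.1, (g x.1).2, x.2.1, x.2.2.1, x.2.2.2)) V) ?_ ?_) ?_
      · refine poly_listP hgg (qb := fun (x : List Bool × List Op × List ℕ × ℕ) j q t i =>
          bits (((WW x.1, pp x.1, (g x.1).2, x.2.1, x.2.2.1, x.2.2.2), j, q, findF (rrP ((PE P).eval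
        (Ins.m (WW x.1, pp x.1, (g x.1).2, x.2.1, x.2.2.1, x.2.2.2)))), t, i) : QryP)) ?_
          hMU hNU (fun x => nnP_pos (PE_pos _ _)) hRB (UPoly.mul hmU hmU) hFP
        refine poly_bits ?_
        have hI' := hI.comp (f := fun x : (List Bool × List Op × List ℕ × ℕ) ×
          ℕ × ℕ × ℕ × ℕ => x.1) (NPC.Poly.fst NPC.Poly.id)
        have hF' := hFP.comp (f := fun x : (List Bool × List Op × List ℕ × ℕ) ×
          ℕ × ℕ × ℕ × ℕ => x.1) (NPC.Poly.fst NPC.Poly.id)
        exact NPC.Poly.pair hI' (NPC.Poly.pair (by fun_prop) (NPC.Poly.pair (by fun_prop)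
          (NPC.Poly.pair hF' (by fun_prop))))
      · exact poly_cf ((uPoly_m hI).comp (NPC.Poly.fst NPC.Poly.id)) (NPC.Poly.snd NPC.Poly.id)
      · have h1 := (poly_p hI).comp (f := fun x : (List Bool × List Op × List ℕ × ℕ) ×
          List ℕ => x.1) (NPC.Poly.fst NPC.Poly.id)
        fun_prop
    have hF : NPC.Poly (fun x : List Bool => (g x).2) := NPC.Poly.snd hg
    have h1 := poly_runG (p := pp) (D := fun x => (PDP P).eval (mm x))
      (lv := fun x r => leafN (pp x) (g x).2 r) (cm := fun x o y u w => combN (pp x) o y u w)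
      (cd := fun x os r i => cdP gg P (WW x, pp x, (g x).2, os, r, i)) hppP
      (hmmU.eval (PDP P)) hcdP (by
        exact poly_leafN (p := fun x : List Bool × List ℕ => pp x.1) (F := fun x => (g x.1).2)
          (r := fun x => x.2) (by fun_prop) (by fun_prop) (by fun_prop))
      (fun x r => leafN_le _ _ _) (by
        exact poly_combN (p := fun x : List Bool × Option Bool × ℕ × ℕ × ℕ => pp x.1)
          (x := fun x => x.2.2.1) (u := fun x => x.2.2.2.1) (w := fun x => x.2.2.2.2)
          (o := fun x => x.2.1) (by fun_prop) (by fun_prop) (by fun_prop) (by fun_prop)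
          (by fun_prop))
      (fun x o y u w => (combN_le _ _ _ _ _).trans (Nat.le_succ _))
      (os := fun x => opsQ (g x).1.length 0 (g x).1) (r := rr)
      (poly_opsQ (NPC.Poly.fst hg)) hrrP
    exact NPC.Poly.dec_eq (NPC.Poly.mod h1 (by fun_prop)) (NPC.Poly.const 1)
  refine ⟨fun x => [dec x], polyTime_of_poly hdecP, fun x => ?_⟩
  -- correctness
  set m := mm x with hm
  have hsz : sz (g x).2 + sz (opsQ (g x).1.length 0 (g x).1) + sz (g x).1 + 10 + c0 ≤ m := by
    have h1 := hr1 x
    have h2 := sz_listBool_le x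
    have h3 := eval_mono r1 h2
    simp only [sz_pair] at h1
    rw [hm, hmm]
    simp only
    omega
  have hn : (g x).1.length < sz (g x).1 := length_lt_sz _
  have hpow := hc0 m (by omega)
  rw [Polynomial.eval_add] at hpow
  have hfp := findP_spec (M := (PMP P).eval m) (by simp [PMP])
  have hpx : pp x = findP ((PMP P).eval m) - 1 := rfl
  have hPM : (PMP P).eval m = (PKP P).eval m * (PKP P).eval m * m + m + 2 := by
    simp [PMP]
  have hPD : (PDP P).eval m = 2 * (PMP P).eval m + 1 := by simp [PDP]
  have hp1 : pp x + 1 = findP ((PMP P).eval m) := by omega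
  have hprime : Fact (pp x + 1).Prime := ⟨by rw [hp1]; exact hfp.1⟩
  set p := pp x with hp
  have hpm : p < 2 ^ m := by omega
  have hdegleaf : (((g x).2).map List.length).sum + 2 < m := by
    have key : ∀ F : List (List (Bool × ℕ)), (F.map List.length).sum + 1 ≤ sz F := by
      intro F
      induction F with
      | nil => simp
      | cons c F ih =>
        have := length_lt_sz c
        simp only [List.map_cons, List.sum_cons, sz_list_cons]
        omega
    have := key (g x).2
    omega
  have hrc := runG_correct (p := p) (D := (PDP P).eval m) (m := m) (n := (g x).1.length)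
    (K := (PKP P).eval m) (lv := fun r => leafN p (g x).2 r)
    (cm := fun o y u w => combN p o y u w)
    (cd := fun os r i => cdP gg P (WW x, p, (g x).2, os, r, i))
    (vf := val (leafC (g x).2)) (os0 := opsQ (g x).1.length 0 (g x).1) (by omega) (by omega)
    (by omega) (opsQ_idx _ _ _ (by omega)) (fun r _ _ => cast_leafN p (g x).2 r) ?_ ?_
    (opsQ (g x).1.length 0 (g x).1) (rr x) List.suffix_rfl (by rw [hrr]; simp) (by
      intro a ha
      rw [hrr] at ha
      simp only at ha
      rw [List.eq_of_mem_replicate ha]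
      exact Nat.zero_le _)
  · -- the final equivalence
    rw [hgL x]
    have e1 : pt p (rr x) = fun _ => (0 : ZMod (p + 1)) := by
      funext i
      unfold pt
      rw [hrr]
      simp only
      by_cases hi : i < (g x).1.length
      · rw [List.getD_eq_getElem _ _ (by simpa using hi)]
        simp
      · rw [List.getD_eq_getElem?_getD, List.getElem?_eq_none (by simpa using hi)]
        simp
    rw [e1, val_ops] at hrc
    have h2 : ∀ y : ℕ, y % (p + 1) = 1 ↔ (y : ZMod (p + 1)) = 1 := by
      intro y
      have h3 := ZMod.natCast_eq_natCast_iff' y 1 (p + 1)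
      rw [Nat.mod_eq_of_lt (a := 1) (by have := hprime.out.one_lt; omega), Nat.cast_one] at h3
      exact h3.symm
    simp only [List.cons.injEq, and_true, hdec, decide_eq_true_eq]
    rw [h2, hrc]
    unfold bit
    split_ifs with hb
    · simp [hb]
    · simp [hb]
  · -- the combinations
    rintro ⟨o, i⟩ os r u w hrl hra hi hu hw
    simp only
    rw [cast_combN, hu, hw]
    rfl
  · -- the candidates
    intro os r i hos hne hrl hra hi
    set I : Ins := (WW x, p, (g x).2, os, r, i) with hI
    have hIm : I.m = m := by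
      change (WW x).length = m
      rw [hWWl]
    have hIp : I.p = p := rfl
    have hW : WW x = List.replicate m () := rfl
    have hwf : Wf I := ⟨by rw [hIm]; exact hpm, by
      change i < r.length
      omega, fun o ho => by
      change o.2 < r.length
      rw [hrl]
      exact opsQ_idx _ _ 0 (by omega) o (hos.subset ho)⟩
    have hprime' : Fact (I.p + 1).Prime := hprime
    obtain ⟨V, hV⟩ := good_exists (I := I) (by rw [hIm]; exact hpm)
      (allDeg_suffix (R := ZMod (p + 1)) (d := (((g x).2).map List.length).sum + 2)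
        (by omega) (fun i _ => (degLE_leafC (g x).2 i).mono (by omega)) _ _ os hos i hi)
      (by rw [hIm]; exact hdegleaf)
    refine ⟨?_, ?_, cf I.m V, ?_, hV.2.2⟩
    · have h1 := length_cdP_le gg P I
      rw [hIm] at h1
      exact h1
    · intro cs hcs
      have h1 := cdP_spec gg P I cs hcs
      rw [hIm, hIp] at h1
      exact h1
    · unfold cdP
      rw [List.mem_filter, List.mem_map, List.all_eq_true]
      refine ⟨⟨V, ?_, rfl⟩, fun a ha => by simpa using hV.2.1 a ha⟩
      set M := (PE P).eval I.m with hM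
      have hM0 : 0 < M := PE_pos _ _
      obtain ⟨hr0, hr1', hr2'⟩ := rrP_spec hM0
      obtain ⟨hfl, hz⟩ := findF_spec hr0
      set fl := findF (rrP M) with hfl'
      have hMm : 2 * M ^ 2 < 2 ^ m := by
        have h1 : 2 * M ^ 2 = (Polynomial.C 2 * PE P ^ 2).eval m := by
          rw [hM, hIm]
          simp
        omega
      have hrm : rrP M ≤ m := Nat.size_le.2 hMm
      have h1 := mem_listP (g := gg) (qb := fun j q t i => bits ((I, j, q, fl, t, i) : QryP))
        (M := M) (N := nnP M) (r := rrP M) (f := fl) (L := LP) (V := V) (μ := I.m * I.m)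
        hr0 hfl hz (param_okP hM0 (mm_le_PE P I.m)) hr1' le_rfl (nnP_pos hM0) ?_ ?_
        (I.m * I.m) le_rfl
      · rwa [Nat.mod_eq_of_lt hV.1] at h1
      · intro j q t i' _
        rw [mem_LP hwf]
        have e : bitP fl t (V % 2 ^ j % q) i' = wd (rrP M) fl (hh (rrP M) fl cc t 0
            (V % 2 ^ j % q)) (hh (rrP M) fl cc t cc (V % 2 ^ j % q)) i' := by
          unfold bitP
          rw [hfl]
        constructor
        · rintro ⟨V', h1, h2⟩
          rw [← e, good_unique (I := I) (by rw [hIm, hIp]; omega) hV h1]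
          exact h2
        · intro h1
          exact ⟨V, hV, by rw [e]; exact h1⟩
      · intro j hj q hq t ht
        have hlen : ((List.range M).map fun i' => bits ((I, j, q, fl, t, i') : QryP)).length = M := by
          simp
        obtain ⟨h2, h3, h4⟩ := hpred (PN.eval m)
          ((List.range M).map fun i' => bits ((I, j, q, fl, t, i') : QryP)) (by
            intro y hy
            obtain ⟨i', hi', rfl⟩ := List.mem_map.1 hy
            rw [List.mem_range] at hi'
            rw [bits_length, hI, hW]
            rw [hIm] at hj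
            refine sz_queryP hpm (by omega) ((sz_suffix hos).trans (by omega)) (by omega) hra
              (by omega) hj hrm (by omega) hq hfl ht (lt_of_lt_of_le hi' ?_)
            have := Nat.le_self_pow (n := 2) (by norm_num) M
            omega) (by
            rw [hlen, hM, PE_eval, hIm]
            omega)
        rw [hlen] at h3
        refine ⟨⟨h2, h3⟩, ?_⟩
        set E := gg (bits ((List.range M).map fun i' => bits ((I, j, q, fl, t, i') : QryP))) with hE
        have h5 : 0 < E.length := List.length_pos_iff.2 h2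
        have h6 : P.eval (PN.eval m) ≤ M := by
          rw [hM, PE_eval, hIm]
          omega
        unfold cor
        set X := (E.filter (holds (((List.range M).map fun i' =>
          bits ((I, j, q, fl, t, i') : QryP)).map fun x => decide (x ∈ LP)))).length with hX
        set Q := P.eval (PN.eval m) with hQ
        -- (Q+2)|E| ≤ 2 Q X implies (M+2)|E| ≤ 2 M X
        have h7 : E.length ≤ 2 * X := by
          by_contra hcon
          push Not at hcon
          have : 2 * Q * X ≤ Q * E.length := by nlinarith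
          nlinarith
        have h8 : Q * ((M + 2) * E.length) ≤ Q * (2 * M * X) := by
          nlinarith
        rcases Nat.eq_zero_or_pos Q with h9 | h9
        · exfalso
          rw [h9] at h4
          have h10 : (0 + 2) * E.length ≤ 2 * 0 * X := h4
          omega
        · exact Nat.le_of_mul_le_mul_left h8 h9

theorem predictable_of_inP {L : Set (List Bool)} (h : InP L) : ParityPredictable L := by
  classical
  obtain ⟨V, hV, hVL⟩ := h
  set g : List Bool → List (List Bool × Bool) := fun x =>
    [(((unbits (List (List Bool)) x).getD []).zipIdx.map fun p => decide (p.2 = 0),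
      decide (V (((unbits (List (List Bool)) x).getD []).headD []) = [true]))] with hg
  have hgP : NPC.Poly g := by
    have h1 : NPC.Poly (fun x : List Bool => (unbits (List (List Bool)) x).getD []) :=
      NPC.Poly.optGetD poly_unbits (NPC.Poly.const _)
    have h2 : NPC.Poly (fun x : List Bool => (((unbits (List (List Bool)) x).getD []).head?).getD []) :=
      NPC.Poly.optGetD (NPC.Poly.head? h1) (NPC.Poly.const _)
    have h3 : NPC.Poly (fun x : List Bool => V ((((unbits (List (List Bool)) x).getD []).head?).getD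
        [])) := (poly_of_polyTime hV).comp h2
    have h4 : NPC.Poly (fun x : List Bool =>
        [(((unbits (List (List Bool)) x).getD []).zipIdx.map fun p => decide (p.2 = 0),
          decide (V ((((unbits (List (List Bool)) x).getD []).head?).getD []) = [true]))]) := by
      have h5 : NPC.Poly (fun l : List (List Bool) => l.zipIdx.map fun p => decide (p.2 = 0)) := by
        fun_prop
      have h6 : NPC.Poly (fun y : List Bool => decide (y = [true])) := by
        fun_prop
      exact NPC.Poly.cons (NPC.Poly.pair (h5.comp h1) (h6.comp h3)) (NPC.Poly.const _)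
    refine h4.congr fun x => ?_
    simp only [hg, List.headD_eq_head?_getD]
  refine ⟨Polynomial.C 2, g, polyTime_of_typed (poly_bits hgP), fun n xs _ hxs => ?_⟩
  rw [Polynomial.eval_C] at hxs ⊢
  cases xs with
  | nil => simp at hxs
  | cons x xs =>
    have e : g (bits (x :: xs)) = [((x :: xs).zipIdx.map fun p => decide (p.2 = 0),
        decide (x ∈ L))] := by
      simp only [hg, unbits_bits, Option.getD_some, List.headD_cons]
      congr 2
      rw [decide_eq_decide]
      exact (hVL x).symm
    rw [e]
    refine ⟨by simp, ?_, ?_⟩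
    · intro e he
      rw [List.mem_singleton] at he
      subst he
      refine ⟨by simp, ?_⟩
      simp
    · have h1 : holds ((x :: xs).map fun x => decide (x ∈ L))
          ((x :: xs).zipIdx.map fun p => decide (p.2 = 0), decide (x ∈ L)) = true := by
        unfold holds
        simp only [List.map_cons, List.zipIdx_cons, List.zipWith_cons_cons, decide_true,
          Bool.true_and, zero_add]
        have h2 : ∀ (l : List (List Bool)) (k : ℕ), 0 < k → par (List.zipWith (fun s t => s && t)
            ((l.zipIdx k).map fun p => decide (p.2 = 0)) (l.map fun x => decide (x ∈ L))) =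
              false := by
          intro l
          induction l with
          | nil => intro k _; simp [par]
          | cons a l ih =>
            intro k hk
            rw [List.zipIdx_cons, List.map_cons, List.map_cons, List.zipWith_cons_cons]
            have h3 := ih (k + 1) (by omega)
            have h4 : decide (k = 0) = false := by simp; omega
            simp only [h4, Bool.false_and]
            change (false ^^ _) = false
            rw [Bool.false_xor]
            exact h3
        have h3 := h2 xs 1 one_pos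
        change ((decide (x ∈ L) ^^ _) == decide (x ∈ L)) = true
        rw [show List.foldr xor false (List.zipWith (fun s t => s && t)
          ((xs.zipIdx 1).map fun p => decide (p.2 = 0)) (xs.map fun x => decide (x ∈ L))) = false
          from h3]
        simp
      rw [List.filter_cons, if_pos h1]
      simp

/-- Prediction is inherited under reductions. -/
theorem ParityPredictable.of_reduces {K L : Set (List Bool)} (hK : ParityPredictable K)
    (h : Reduces L K) : ParityPredictable L := by
  classical
  obtain ⟨P, g, hg, hP⟩ := hK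
  obtain ⟨φ, hφ, hφL⟩ := h
  have hφP := poly_of_polyTime hφ
  obtain ⟨q, hq⟩ := hφP.sz_le
  have hφlen : ∀ x, (φ x).length ≤ q.eval (4 * x.length + 1) := by
    intro x
    have h1 := length_lt_sz (φ x)
    have h2 := hq x
    have h3 := eval_mono q (sz_listBool_le x)
    omega
  have hP' : NPC.Poly (fun x : List Bool => g (bits (((unbits (List (List Bool)) x).getD []).map
      φ))) := by
    refine poly_g hg (NPC.Poly.map (F := fun _ y => φ y) (NPC.Poly.optGetD poly_unbits
      (NPC.Poly.const _)) ?_)
    exact hφP.comp (NPC.Poly.snd NPC.Poly.id)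
  refine ⟨P.comp (q.comp (Polynomial.C 4 * Polynomial.X + Polynomial.C 1)), fun x =>
    g (bits (((unbits (List (List Bool)) x).getD []).map φ)), polyTime_of_typed (poly_bits hP'),
    fun n xs hxs hlen => ?_⟩
  have h1 : (P.comp (q.comp (Polynomial.C 4 * Polynomial.X + Polynomial.C 1))).eval n =
      P.eval (q.eval (4 * n + 1)) := by
    simp [Polynomial.eval_comp]
  rw [h1] at hlen ⊢
  obtain ⟨h2, h3, h4⟩ := hP (q.eval (4 * n + 1)) (xs.map φ) (by
    intro y hy
    obtain ⟨x, hx, rfl⟩ := List.mem_map.1 hy
    have h5 := hxs x hx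
    exact (hφlen x).trans (eval_mono q (by omega))) (by rw [List.length_map]; exact hlen)
  have h5 : ((xs.map φ).map fun x => decide (x ∈ K)) = xs.map fun x => decide (x ∈ L) := by
    rw [List.map_map]
    refine List.map_congr_left fun x _ => ?_
    simp only [Function.comp]
    rw [decide_eq_decide]
    exact (hφL x).symm
  rw [List.length_map] at h3
  rw [h5] at h4
  simp only [unbits_bits, Option.getD_some]
  exact ⟨h2, h3, h4⟩

theorem predictable_iff : (∃ K : Set (List Bool), PSPACEHard K ∧ ParityPredictable K) ↔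
    ∀ L : Set (List Bool), InPSPACE L → InP L := by
  constructor
  · rintro ⟨K, hK, hp⟩ L hL
    exact collapse_of_predictable (hp.of_reduces (hK LP inPSPACE_LP)) hL
  · intro h
    refine ⟨{[true]}, fun L hL => ?_, predictable_of_inP ⟨fun x => x,
      polyTime_of_typed NPC.Poly.id, fun x => Iff.rfl⟩⟩
    obtain ⟨V, hV, hVL⟩ := h L hL
    exact ⟨V, hV, fun x => hVL x⟩

end Pool.Agent.Helper70K1.PP
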