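import Pool.Agent.Helper70K1.PP.Prune
import Pool.Agent.Helper70K1.SP.McPoly

/-!
# Complexity of the pruning algorithm
-/

set_option autoImplicit false

namespace Pool.Agent.Helper70K1.PP

open Pool.Agent.NPC
open Pool.Agent.Helper70K1.SP (tb tb_eq hsh poly_tb upoly_bound poly_hsh poly_pow2 poly_of_polyTime
  sz_lt_two_pow poly_bits)

variable {α : Type} [TEnc α]

theorem poly_vec {r : α → ℕ} (hr : UPoly r) {F : α → ℕ → Bool}
    (hF : NPC.Poly (fun x : α × ℕ => F x.1 x.2)) : NPC.Poly (fun a => vec (r a) (F a)) := by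
  unfold vec
  exact NPC.Poly.map (F := fun a i => F a i) hr.range hF

theorem poly_xl {r : α → ℕ} (hr : UPoly r) {a b : α → List Bool} (ha : NPC.Poly a)
    (hb : NPC.Poly b) : NPC.Poly (fun x => xl (r x) (a x) (b x)) := by
  unfold xl
  refine poly_vec hr ?_
  fun_prop

theorem poly_mulX {r : α → ℕ} (hr : UPoly r) {f a : α → List Bool} (hf : NPC.Poly f)
    (ha : NPC.Poly a) : NPC.Poly (fun x => mulX (r x) (f x) (a x)) := by
  unfold mulX
  have h1 := hr.toPoly
  refine poly_vec hr ?_
  fun_prop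

theorem sz_le_of_length {l : List Bool} {n : ℕ} (h : l.length ≤ n) : sz l ≤ 4 * n + 1 :=
  (sz_listBool_le l).trans (by omega)

theorem mul_length_le (r : ℕ) (f a b : List Bool) : (mul r f a b).length ≤ r := by
  cases b with
  | nil => simp [mul]
  | cons t b => exact (xl_length _ _ _).le

theorem poly_mul {r : α → ℕ} (hr : UPoly r) {f a b : α → List Bool} (hf : NPC.Poly f)
    (ha : NPC.Poly a) (hb : NPC.Poly b) : NPC.Poly (fun x => mul (r x) (f x) (a x) (b x)) := by
  obtain ⟨q, hq⟩ := upoly_bound hr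
  unfold mul
  refine NPC.Poly.foldr (s := fun _ => []) (F := fun x t acc => xl (r x) (mulX (r x) (f x) acc)
    (if t then a x else [])) hb (NPC.Poly.const _) ?_ (Polynomial.C 4 * q + Polynomial.C 1) ?_
  · refine poly_xl (hr.comp (NPC.Poly.fst NPC.Poly.id)) (poly_mulX
      (hr.comp (NPC.Poly.fst NPC.Poly.id)) (by fun_prop) (by fun_prop)) ?_
    fun_prop
  · intro x k _
    refine (sz_le_of_length (n := r x) ?_).trans ?_
    · exact mul_length_le _ _ _ ((b x).drop k)
    · have := hq x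
      simp only [Polynomial.eval_add, Polynomial.eval_mul, Polynomial.eval_C]
      omega

theorem pw_length_le (r : ℕ) (f a : List Bool) (l : List Bool) :
    (l.foldr (fun t acc => if t then mul r f (mul r f acc acc) a else mul r f acc acc)
      (one r)).length ≤ r := by
  cases l with
  | nil => simp [one]
  | cons t l =>
    rw [List.foldr_cons]
    split_ifs
    · exact mul_length_le _ _ _ _
    · exact mul_length_le _ _ _ _

theorem poly_one {r : α → ℕ} (hr : UPoly r) : NPC.Poly (fun x => one (r x)) := by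
  unfold one
  refine poly_vec hr ?_
  fun_prop

theorem poly_pw {r : α → ℕ} (hr : UPoly r) {f a : α → List Bool} (hf : NPC.Poly f)
    (ha : NPC.Poly a) {i : α → ℕ} (hi : NPC.Poly i) :
    NPC.Poly (fun x => pw (r x) (f x) (a x) (i x)) := by
  obtain ⟨q, hq⟩ := upoly_bound hr
  unfold pw
  refine NPC.Poly.foldr (l := fun x => (i x).bits) (s := fun x => one (r x))
    (F := fun x t acc => if t then mul (r x) (f x) (mul (r x) (f x) acc acc) (a x) else
      mul (r x) (f x) acc acc) (NPC.Poly.natBits hi) (poly_one hr) ?_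
      (Polynomial.C 4 * q + Polynomial.C 1) ?_
  · have hr' := hr.comp (f := fun p : α × Bool × List Bool => p.1) (NPC.Poly.fst NPC.Poly.id)
    have h1 : NPC.Poly (fun p : α × Bool × List Bool => mul (r p.1) (f p.1) p.2.2 p.2.2) :=
      poly_mul hr' (by fun_prop) (by fun_prop) (by fun_prop)
    have h2 : NPC.Poly (fun p : α × Bool × List Bool => mul (r p.1) (f p.1)
        (mul (r p.1) (f p.1) p.2.2 p.2.2) (a p.1)) :=
      poly_mul hr' (by fun_prop) h1 (by fun_prop)
    fun_prop
  · intro x k _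
    refine (sz_le_of_length (n := r x) ?_).trans ?_
    · exact pw_length_le _ _ _ _
    · have := hq x
      simp only [Polynomial.eval_add, Polynomial.eval_mul, Polynomial.eval_C]
      omega

@[fun_prop]
theorem poly_par {l : α → List Bool} (hl : NPC.Poly l) : NPC.Poly (fun x => par (l x)) := by
  unfold par
  refine NPC.Poly.foldr (s := fun _ => false) (F := fun _ t acc => xor t acc) hl (NPC.Poly.const _)
    (by fun_prop) (Polynomial.C 3) ?_
  intro x k _
  rw [Polynomial.eval_C]
  exact sz_bool_le _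

theorem poly_ip {r : α → ℕ} (hr : UPoly r) {a b : α → List Bool} (ha : NPC.Poly a)
    (hb : NPC.Poly b) : NPC.Poly (fun x => ip (r x) (a x) (b x)) := by
  unfold ip
  refine poly_par (poly_vec hr ?_)
  fun_prop

theorem poly_wd {r : α → ℕ} (hr : UPoly r) {f a b : α → List Bool} (hf : NPC.Poly f)
    (ha : NPC.Poly a) (hb : NPC.Poly b) {i : α → ℕ} (hi : NPC.Poly i) :
    NPC.Poly (fun x => wd (r x) (f x) (a x) (b x) (i x)) := by
  unfold wd
  exact poly_ip hr hb (poly_pw hr hf ha hi)

theorem poly_blk {r : α → ℕ} (hr : UPoly r) {k t : α → ℕ} (hk : NPC.Poly k) (ht : NPC.Poly t) :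
    NPC.Poly (fun x => blk (r x) (k x) (t x)) := by
  unfold blk
  have h1 := hr.toPoly
  refine poly_vec hr ?_
  fun_prop

theorem hh_length_le (r : ℕ) (f : List Bool) (t off u : ℕ) (l : List ℕ) :
    (l.foldr (fun k acc => xl r (mul r f (blk r (off + k) t) (blk r k u)) acc) []).length ≤ r := by
  cases l with
  | nil => simp
  | cons k l => exact (xl_length _ _ _).le

theorem poly_hh (c : ℕ) {r : α → ℕ} (hr : UPoly r) {f : α → List Bool} (hf : NPC.Poly f)
    {t off u : α → ℕ} (ht : NPC.Poly t) (ho : NPC.Poly off) (hu : NPC.Poly u) :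
    NPC.Poly (fun x => hh (r x) (f x) c (t x) (off x) (u x)) := by
  obtain ⟨q, hq⟩ := upoly_bound hr
  unfold hh
  refine NPC.Poly.foldr (l := fun _ => List.range c) (s := fun _ => []) (F := fun x k acc =>
    xl (r x) (mul (r x) (f x) (blk (r x) (off x + k) (t x)) (blk (r x) k (u x))) acc)
    (NPC.Poly.const _) (NPC.Poly.const _) ?_ (Polynomial.C 4 * q + Polynomial.C 1) ?_
  · have hr' := hr.comp (f := fun p : α × ℕ × List Bool => p.1) (NPC.Poly.fst NPC.Poly.id)
    refine poly_xl hr' (poly_mul hr' (by fun_prop) (poly_blk hr' (by fun_prop) (by fun_prop))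
      (poly_blk hr' (by fun_prop) (by fun_prop))) (by fun_prop)
  · intro x k _
    refine (sz_le_of_length (n := r x) ?_).trans ?_
    · exact hh_length_le _ _ _ _ _ _
    · have := hq x
      simp only [Polynomial.eval_add, Polynomial.eval_mul, Polynomial.eval_C]
      omega

theorem poly_word (c : ℕ) {M r : α → ℕ} (hM : UPoly M) (hr : UPoly r) {f : α → List Bool}
    (hf : NPC.Poly f) {t u : α → ℕ} (ht : NPC.Poly t) (hu : NPC.Poly u) :
    NPC.Poly (fun x => word (M x) (r x) (f x) c (t x) (u x)) := by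
  unfold word
  have h1 := poly_hh c hr hf ht (NPC.Poly.const 0) hu
  have h2 := poly_hh c hr hf ht (NPC.Poly.const c) hu
  refine poly_vec hM ?_
  exact poly_wd (r := fun x : α × ℕ => r x.1) (hr.comp (NPC.Poly.fst NPC.Poly.id))
    (hf.comp (NPC.Poly.fst NPC.Poly.id)) (h1.comp (NPC.Poly.fst NPC.Poly.id))
    (h2.comp (NPC.Poly.fst NPC.Poly.id)) (NPC.Poly.snd NPC.Poly.id)

theorem zipWith_eq (l l' : List Bool) : List.zipWith (fun s t => s && t) l l' =
    (l.zip l').map fun p => p.1 && p.2 := by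
  induction l generalizing l' with
  | nil => simp
  | cons a l ih =>
    cases l' with
    | nil => simp
    | cons b l' => simp [ih]

@[fun_prop]
theorem poly_holds {y : α → List Bool} {e : α → List Bool × Bool} (hy : NPC.Poly y)
    (he : NPC.Poly e) : NPC.Poly (fun x => holds (y x) (e x)) := by
  have h1 : NPC.Poly (fun x => ((e x).1.zip (y x)).map fun p => p.1 && p.2) := by fun_prop
  have h2 : NPC.Poly (fun x => decide (par (((e x).1.zip (y x)).map fun p => p.1 && p.2) =
    (e x).2)) := by fun_prop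
  refine h2.congr fun x => ?_
  unfold holds
  rw [zipWith_eq]
  cases par (((e x).1.zip (y x)).map fun p => p.1 && p.2) <;> cases (e x).2 <;> rfl

theorem poly_cor {E : α → List (List Bool × Bool)} {y : α → List Bool} (hE : NPC.Poly E)
    (hy : NPC.Poly y) : NPC.Poly (fun x => cor (E x) (y x)) := by
  unfold cor
  exact NPC.Poly.length (NPC.Poly.filter (p := fun x e => holds (y x) e) hE (by fun_prop))

@[fun_prop]
theorem poly_allF {l : α → List Bool} (hl : NPC.Poly l) : NPC.Poly (fun x => allF (l x)) := by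
  unfold allF
  fun_prop

theorem poly_zdOK {r : α → ℕ} (hr : UPoly r) (h2 : UPoly (fun x => 2 ^ r x)) {f : α → List Bool}
    (hf : NPC.Poly f) : NPC.Poly (fun x => zdOK (r x) (f x)) := by
  unfold zdOK
  refine NPC.Poly.all (p := fun x a => (List.range (2 ^ r x)).all fun b =>
    !(allF (mul (r x) (f x) (blk (r x) 0 a) (blk (r x) 0 b))) || (allF (blk (r x) 0 a) ||
      allF (blk (r x) 0 b))) h2.range ?_
  refine NPC.Poly.all (p := fun (x : α × ℕ) b =>
    !(allF (mul (r x.1) (f x.1) (blk (r x.1) 0 x.2) (blk (r x.1) 0 b))) ||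
      (allF (blk (r x.1) 0 x.2) || allF (blk (r x.1) 0 b)))
      ((h2.range).comp (NPC.Poly.fst NPC.Poly.id)) ?_
  have hr' := hr.comp (f := fun p : (α × ℕ) × ℕ => p.1.1) (by fun_prop)
  have h3 := poly_blk hr' (k := fun _ => 0) (t := fun p : (α × ℕ) × ℕ => p.1.2)
    (NPC.Poly.const 0) (by fun_prop)
  have h4 := poly_blk hr' (k := fun _ => 0) (t := fun p : (α × ℕ) × ℕ => p.2)
    (NPC.Poly.const 0) (by fun_prop)
  have h5 := poly_mul hr' (f := fun p : (α × ℕ) × ℕ => f p.1.1) (by fun_prop) h3 h4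
  fun_prop

theorem poly_findF {r : α → ℕ} (hr : UPoly r) (h2 : UPoly (fun x => 2 ^ r x)) :
    NPC.Poly (fun x => findF (r x)) := by
  unfold findF
  refine NPC.Poly.optGetD (NPC.Poly.head? (NPC.Poly.filter (p := fun x l => zdOK (r x) l)
    (NPC.Poly.map (F := fun x a => blk (r x) 0 a) h2.range ?_) ?_)) (NPC.Poly.const _)
  · exact poly_blk (hr.comp (NPC.Poly.fst NPC.Poly.id)) (NPC.Poly.const 0)
      (NPC.Poly.snd NPC.Poly.id)
  · exact poly_zdOK (hr.comp (NPC.Poly.fst NPC.Poly.id)) (h2.comp (NPC.Poly.fst NPC.Poly.id))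
      (NPC.Poly.snd NPC.Poly.id)

theorem poly_key (c : ℕ) {r : α → ℕ} (hr : UPoly r) {f : α → List Bool} (hf : NPC.Poly f)
    {t u : α → ℕ} (ht : NPC.Poly t) (hu : NPC.Poly u) :
    NPC.Poly (fun x => key (r x) (f x) c (t x) (u x)) :=
  NPC.Poly.pair (poly_hh c hr hf ht (NPC.Poly.const 0) hu)
    (poly_hh c hr hf ht (NPC.Poly.const c) hu)

theorem poly_collL (c : ℕ) {r : α → ℕ} (hr : UPoly r) {f : α → List Bool} (hf : NPC.Poly f)
    {t : α → ℕ} {us : α → List ℕ} (ht : NPC.Poly t) (hus : NPC.Poly us) :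
    NPC.Poly (fun x => collL (r x) (f x) c (t x) (us x)) := by
  unfold collL
  refine NPC.Poly.sum (NPC.Poly.map (F := fun x u => ((us x).filter fun v =>
    decide (key (r x) (f x) c (t x) u = key (r x) (f x) c (t x) v)).length) hus ?_)
  refine NPC.Poly.length (NPC.Poly.filter (p := fun (x : α × ℕ) v =>
    decide (key (r x.1) (f x.1) c (t x.1) x.2 = key (r x.1) (f x.1) c (t x.1) v))
    (by fun_prop) ?_)
  have hr' := hr.comp (f := fun p : (α × ℕ) × ℕ => p.1.1) (by fun_prop)
  exact NPC.Poly.dec_eq (poly_key c hr' (f := fun p : (α × ℕ) × ℕ => f p.1.1) (by fun_prop)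
    (by fun_prop) (by fun_prop)) (poly_key c hr' (f := fun p : (α × ℕ) × ℕ => f p.1.1)
    (by fun_prop) (by fun_prop) (by fun_prop))

/-- Bounds for the powers of two. -/
structure RB (r : α → ℕ) : Prop where
  hr : UPoly r
  h1 : UPoly (fun x => 2 ^ r x)

theorem RB.pow {r : α → ℕ} (h : RB r) (c : ℕ) : UPoly (fun x => 2 ^ (r x * c)) := by
  have h1 := (h.h1).eval (Polynomial.X ^ c)
  refine NPC.Poly.congr (f := fun x => List.replicate ((Polynomial.X ^ c : Polynomial ℕ).eval
    (2 ^ r x)) ()) h1 fun x => ?_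
  simp only [Polynomial.eval_pow, Polynomial.eval_X, pow_mul]

theorem RB.four {r : α → ℕ} (h : RB r) : UPoly (fun x => 4 ^ r x) := by
  refine NPC.Poly.congr (f := fun x => List.replicate (2 ^ (r x * 2)) ()) (h.pow 2) fun x => ?_
  simp only
  rw [mul_comm, pow_mul]
  norm_num

theorem RB.comp {β : Type} [TEnc β] {r : α → ℕ} (h : RB r) {g : β → α} (hg : NPC.Poly g) :
    RB (fun b => r (g b)) := ⟨h.hr.comp hg, h.h1.comp hg⟩

theorem poly_findT (c : ℕ) {r : α → ℕ} (hr : RB r) {f : α → List Bool} (hf : NPC.Poly f)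
    {us : α → List ℕ} (hus : NPC.Poly us) :
    NPC.Poly (fun x => findT (r x) (f x) c (us x)) := by
  unfold findT
  refine NPC.Poly.optGetD (NPC.Poly.head? (NPC.Poly.filter (p := fun x t =>
    decide (4 ^ r x * collL (r x) (f x) c t (us x) ≤ 4 ^ r x * (us x).length + (us x).length ^ 2))
    (hr.pow (2 * c)).range ?_)) (NPC.Poly.const 0)
  have h1 := (hr.four.toPoly).comp (f := fun x : α × ℕ => x.1) (by fun_prop)
  have h2 : NPC.Poly (fun x : α × ℕ => collL (r x.1) (f x.1) c x.2 (us x.1)) :=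
    poly_collL c (hr.hr.comp (NPC.Poly.fst NPC.Poly.id)) (by fun_prop) (by fun_prop) (by fun_prop)
  simp only [sq]
  fun_prop

section

variable {g : List Bool → List (List Bool × Bool)}

theorem poly_g (hg : PolyTime fun x => bits (g x)) {β : Type} [TEnc β] {Q : α → β}
    (hQ : NPC.Poly Q) : NPC.Poly (fun x => g (bits (Q x))) := by
  have h1 := (poly_of_polyTime hg).comp (poly_bits hQ)
  have h2 : NPC.Poly (fun x => (unbits (List (List Bool × Bool)) (bits (g (bits (Q x))))).getD []) :=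
    NPC.Poly.optGetD (poly_unbits.comp h1) (NPC.Poly.const _)
  refine h2.congr fun x => ?_
  rw [unbits_bits]
  rfl

theorem poly_prP (hg : PolyTime fun x => bits (g x)) {qb : α → ℕ → ℕ → ℕ → ℕ → List Bool}
    (hqb : NPC.Poly (fun x : α × ℕ × ℕ × ℕ × ℕ => qb x.1 x.2.1 x.2.2.1 x.2.2.2.1 x.2.2.2.2))
    {M N r : α → ℕ} (hM : UPoly M) (hN : UPoly N) (hr : RB r) {f : α → List Bool}
    (hf : NPC.Poly f) {j : α → ℕ} (hj : NPC.Poly j) {A : α → List ℕ} (hA : NPC.Poly A) :
    NPC.Poly (fun x => prP g (qb x) (M x) (N x) (r x) (f x) (j x) (A x)) := by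
  unfold prP
  have hq : NPC.Poly (fun x => hsh (r x * cc) (A x)) := poly_hsh (hr.pow cc) hA
  have hus : NPC.Poly (fun x => (A x).map fun v => v % hsh (r x * cc) (A x)) :=
    NPC.Poly.map (F := fun x v => v % hsh (r x * cc) (A x)) hA (by
      exact NPC.Poly.mod (NPC.Poly.snd NPC.Poly.id) (hq.comp (NPC.Poly.fst NPC.Poly.id)))
  have ht := poly_findT cc hr hf hus
  have hQ : NPC.Poly (fun x => (List.range (M x)).map (qb x (j x) (hsh (r x * cc) (A x))
      (findT (r x) (f x) cc ((A x).map fun v => v % hsh (r x * cc) (A x))))) := by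
    refine NPC.Poly.map (F := fun x i => qb x (j x) (hsh (r x * cc) (A x))
      (findT (r x) (f x) cc ((A x).map fun v => v % hsh (r x * cc) (A x))) i) hM.range ?_
    have hq' := hq.comp (f := fun x : α × ℕ => x.1) (by fun_prop)
    have ht' := ht.comp (f := fun x : α × ℕ => x.1) (by fun_prop)
    exact hqb.comp (f := fun x : α × ℕ => (x.1, j x.1, hsh (r x.1 * cc) (A x.1),
      findT (r x.1) (f x.1) cc ((A x.1).map fun v => v % hsh (r x.1 * cc) (A x.1)), x.2))
      (by fun_prop)
  have hE := poly_g hg hQ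
  have hN' := hN.toPoly
  refine NPC.Poly.ite (by fun_prop) hA ?_
  refine NPC.Poly.filter (p := fun x v => decide ((M x + 2) * (g (bits ((List.range (M x)).map
    (qb x (j x) (hsh (r x * cc) (A x)) (findT (r x) (f x) cc
      ((A x).map fun v => v % hsh (r x * cc) (A x))))))).length ≤
      2 * M x * cor (g (bits ((List.range (M x)).map (qb x (j x) (hsh (r x * cc) (A x))
        (findT (r x) (f x) cc ((A x).map fun v => v % hsh (r x * cc) (A x)))))))
        (word (M x) (r x) (f x) cc (findT (r x) (f x) cc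
          ((A x).map fun v => v % hsh (r x * cc) (A x))) (v % hsh (r x * cc) (A x))))) hA ?_
  have hM' := (hM.toPoly).comp (f := fun x : α × ℕ => x.1) (by fun_prop)
  have hE' := hE.comp (f := fun x : α × ℕ => x.1) (by fun_prop)
  have hw : NPC.Poly (fun x : α × ℕ => word (M x.1) (r x.1) (f x.1) cc (findT (r x.1) (f x.1) cc
      ((A x.1).map fun v => v % hsh (r x.1 * cc) (A x.1))) (x.2 % hsh (r x.1 * cc) (A x.1))) :=
    poly_word cc (hM.comp (NPC.Poly.fst NPC.Poly.id)) (hr.hr.comp (NPC.Poly.fst NPC.Poly.id))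
      (hf.comp (NPC.Poly.fst NPC.Poly.id)) (ht.comp (NPC.Poly.fst NPC.Poly.id))
      (NPC.Poly.mod (NPC.Poly.snd NPC.Poly.id) (hq.comp (NPC.Poly.fst NPC.Poly.id)))
  have hc := poly_cor hE' hw
  exact NPC.Poly.decide_le (NPC.Poly.mul (NPC.Poly.add hM' (NPC.Poly.const 2))
    (NPC.Poly.length hE')) (NPC.Poly.mul (NPC.Poly.mul (NPC.Poly.const 2) hM') hc)

/-- One more bit, with a bounded number of bits. -/
def stepP' (g : List Bool → List (List Bool × Bool)) (qb : ℕ → ℕ → ℕ → ℕ → List Bool)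
    (M N r : ℕ) (f : List Bool) (μ j : ℕ) (A : List ℕ) : List ℕ :=
  ((prP g qb M N r f (j + 1))^[2 * N] (A ++ A.map fun v => v + 2 ^ (min j μ))).take N

theorem foldl_stepP' (g : List Bool → List (List Bool × Bool)) (qb : ℕ → ℕ → ℕ → ℕ → List Bool)
    (M N r : ℕ) (f : List Bool) (μ : ℕ) :
    ∀ n ≤ μ, (List.range n).foldl (fun A j => stepP' g qb M N r f μ j A) [0] =
      listP g qb M N r f n
  | 0, _ => rfl
  | n + 1, h => by
    rw [List.range_succ, List.foldl_append, foldl_stepP' g qb M N r f μ n (by omega), listP]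
    simp only [List.foldl_cons, List.foldl_nil, stepP', stepP]
    rw [min_eq_left (by omega)]

theorem poly_take {β : Type} [TEnc β] {l : α → List β} {n : α → ℕ} (hl : NPC.Poly l)
    (hn : NPC.Poly n) : NPC.Poly (fun x => (l x).take (n x)) := by
  have h1 : NPC.Poly (fun x => (((l x).zipIdx).filter fun p => decide (p.2 < n x)).map
      fun p => p.1) := by fun_prop
  refine h1.congr fun x => ?_
  have key : ∀ (l : List β) (k n : ℕ), (((l.zipIdx k)).filter fun p => decide (p.2 < n)).map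
      (fun p => p.1) = l.take (n - k) := by
    intro l
    induction l with
    | nil => intro k n; simp
    | cons a l ih =>
      intro k n
      rw [List.zipIdx_cons, List.filter_cons]
      by_cases h : k < n
      · rw [if_pos (by simpa using h), List.map_cons, ih, show n - k = (n - (k + 1)) + 1 by omega,
          List.take_succ_cons]
      · rw [if_neg (by simpa using h), ih, show n - k = 0 by omega,
          show n - (k + 1) = 0 by omega]
        simp
  exact key _ 0 _

theorem sz_iter_le (j : ℕ) {qb : ℕ → ℕ → ℕ → ℕ → List Bool} {M N r : ℕ} {f : List Bool}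
    (A : List ℕ) (n : ℕ) : sz ((prP g qb M N r f j)^[n] A) ≤ sz A := by
  have key : ∀ {l l' : List ℕ}, l.Sublist l' → sz l ≤ sz l' := by
    intro l l' h
    induction h with
    | slnil => exact le_rfl
    | cons a _ ih => rw [sz_list_cons]; omega
    | cons_cons a _ ih => rw [sz_list_cons, sz_list_cons]; omega
  exact key (prP_iter_sublist _ _ _)

theorem poly_stepP' (hg : PolyTime fun x => bits (g x)) {qb : α → ℕ → ℕ → ℕ → ℕ → List Bool}
    (hqb : NPC.Poly (fun x : α × ℕ × ℕ × ℕ × ℕ => qb x.1 x.2.1 x.2.2.1 x.2.2.2.1 x.2.2.2.2))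
    {M N r μ : α → ℕ} (hM : UPoly M) (hN : UPoly N) (hr : RB r) (hμ : UPoly μ)
    {f : α → List Bool} (hf : NPC.Poly f) {j : α → ℕ} (hj : NPC.Poly j) {A : α → List ℕ}
    (hA : NPC.Poly A) :
    NPC.Poly (fun x => stepP' g (qb x) (M x) (N x) (r x) (f x) (μ x) (j x) (A x)) := by
  have h1 : UPoly (fun x => min (j x) (μ x)) :=
    UPoly.of_le (by
      have := hμ.toPoly
      fun_prop) hμ fun x => min_le_right _ _
  have h2 := poly_pow2 h1
  have h3 : NPC.Poly (fun x => A x ++ (A x).map fun v => v + 2 ^ (min (j x) (μ x))) := by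
    refine NPC.Poly.append hA (NPC.Poly.map (F := fun x v => v + 2 ^ (min (j x) (μ x))) hA ?_)
    exact NPC.Poly.add (NPC.Poly.snd NPC.Poly.id) (h2.comp (NPC.Poly.fst NPC.Poly.id))
  obtain ⟨q, hq⟩ := h3.sz_le
  have h4 : NPC.Poly (fun x => (prP g (qb x) (M x) (N x) (r x) (f x) (j x + 1))^[
      (List.replicate (2 * N x) ()).length]
      (A x ++ (A x).map fun v => v + 2 ^ (min (j x) (μ x)))) := by
    refine NPC.Poly.iterLen (l := fun x => List.replicate (2 * N x) ())
      (F := fun x B => prP g (qb x) (M x) (N x) (r x) (f x) (j x + 1) B)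
      (UPoly.mul (UPoly.const 2) hN) h3 ?_ q ?_
    · have hj' : NPC.Poly (fun x : α × List ℕ => j x.1 + 1) := by fun_prop
      exact poly_prP hg (qb := fun x : α × List ℕ => qb x.1) (hqb.comp
        (f := fun x : (α × List ℕ) × ℕ × ℕ × ℕ × ℕ => (x.1.1, x.2)) (by fun_prop))
        (hM.comp (NPC.Poly.fst NPC.Poly.id)) (hN.comp (NPC.Poly.fst NPC.Poly.id))
        (hr.comp (NPC.Poly.fst NPC.Poly.id)) (hf.comp (NPC.Poly.fst NPC.Poly.id)) hj'
        (NPC.Poly.snd NPC.Poly.id)
    · intro x k _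
      exact (sz_iter_le _ _ _).trans (hq x)
  unfold stepP'
  refine poly_take ?_ hN.toPoly
  simpa using h4

theorem poly_listP (hg : PolyTime fun x => bits (g x)) {qb : α → ℕ → ℕ → ℕ → ℕ → List Bool}
    (hqb : NPC.Poly (fun x : α × ℕ × ℕ × ℕ × ℕ => qb x.1 x.2.1 x.2.2.1 x.2.2.2.1 x.2.2.2.2))
    {M N r μ : α → ℕ} (hM : UPoly M) (hN : UPoly N) (hN0 : ∀ x, 0 < N x) (hr : RB r)
    (hμ : UPoly μ) {f : α → List Bool} (hf : NPC.Poly f) :
    NPC.Poly (fun x => listP g (qb x) (M x) (N x) (r x) (f x) (μ x)) := by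
  obtain ⟨r1, hr1⟩ := upoly_bound hμ
  obtain ⟨r2, hr2⟩ := upoly_bound hN
  have h1 : NPC.Poly (fun x => (List.range (μ x)).foldl
      (fun A j => stepP' g (qb x) (M x) (N x) (r x) (f x) (μ x) j A) [0]) := by
    refine NPC.Poly.foldl (s := fun _ => [0]) (F := fun x A j => stepP' g (qb x) (M x)
      (N x) (r x) (f x) (μ x) j A) hμ.range (NPC.Poly.const _) ?_
      (r2 * (Polynomial.C 4 * r1 + Polynomial.C 2) + Polynomial.C 1) ?_
    · exact poly_stepP' hg (qb := fun x : α × List ℕ × ℕ => qb x.1) (hqb.comp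
        (f := fun x : (α × List ℕ × ℕ) × ℕ × ℕ × ℕ × ℕ => (x.1.1, x.2)) (by fun_prop))
        (hM.comp (NPC.Poly.fst NPC.Poly.id)) (hN.comp (NPC.Poly.fst NPC.Poly.id))
        (hr.comp (NPC.Poly.fst NPC.Poly.id)) (hμ.comp (NPC.Poly.fst NPC.Poly.id))
        (hf.comp (NPC.Poly.fst NPC.Poly.id)) (by fun_prop) (by fun_prop)
    · intro x k hk'
      rw [List.length_range] at hk'
      rw [List.take_range, min_eq_left hk', foldl_stepP' g (qb x) _ _ _ _ _ k hk']
      have h2 : (listP g (qb x) (M x) (N x) (r x) (f x) k).length ≤ N x :=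
        length_listP (hN0 x) k
      have h3 : ∀ v ∈ listP g (qb x) (M x) (N x) (r x) (f x) k, sz v ≤ 4 * μ x + 1 :=
        fun v hv => sz_lt_two_pow (lt_of_lt_of_le (listP_lt k v hv)
          (Nat.pow_le_pow_right (by norm_num) hk'))
      refine (sz_le_length_mul _ _ h3).trans ?_
      simp only [Polynomial.eval_add, Polynomial.eval_mul, Polynomial.eval_C]
      refine Nat.add_le_add_right (Nat.mul_le_mul (h2.trans (hr2 x)) ?_) _
      have := hr1 x
      omega
  exact h1.congr fun x => foldl_stepP' g (qb x) _ _ _ _ _ _ le_rfl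

end

end Pool.Agent.Helper70K1.PP
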