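import Pool.Agent.Helper70K1.PP.Gf

/-!
# Parities and small bias
-/

set_option autoImplicit false

namespace Pool.Agent.Helper70K1.PP

/-- The parity of the number of `true`s. -/
def par (l : List Bool) : Bool := l.foldr xor false

/-- The inner product. -/
def ip (r : ℕ) (a b : List Bool) : Bool := par (vec r fun i => a.getD i false && b.getD i false)

/-- The parity of the selected positions is the given one. -/
def holds (y : List Bool) (e : List Bool × Bool) : Bool :=
  par (List.zipWith (fun s t => s && t) e.1 y) == e.2

/-- The bit number `i` of the word with parameters `a`, `b`. -/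
def wd (r : ℕ) (f a b : List Bool) (i : ℕ) : Bool := ip r b (pw r f a i)

/-- The sign. -/
noncomputable def sg (b : Bool) : ℝ := if b then -1 else 1

@[simp] theorem sg_true : sg true = -1 := rfl
@[simp] theorem sg_false : sg false = 1 := rfl

theorem sg_xor (x y : Bool) : sg (x ^^ y) = sg x * sg y := by cases x <;> cases y <;> simp

theorem sg_par (l : List Bool) : sg (par l) = (l.map sg).prod := by
  induction l with
  | nil => simp [par]
  | cons a l ih =>
    rw [List.map_cons, List.prod_cons, ← ih, ← sg_xor]
    rfl

theorem sg_par_vec (n : ℕ) (F : ℕ → Bool) : sg (par (vec n F)) = ∏ i ∈ Finset.range n, sg (F i) := by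
  rw [sg_par, vec, List.map_map, Finset.prod_range]
  rw [← List.prod_ofFn, List.ofFn_eq_map]
  congr 1
  rw [← List.map_coe_finRange_eq_range, List.map_map]
  rfl

theorem zipWith_vec {M : ℕ} {m : List Bool} (hm : m.length = M) (Y : ℕ → Bool) :
    List.zipWith (fun s t => s && t) m (vec M Y) = vec M fun i => m.getD i false && Y i := by
  refine List.ext_getElem (by simp [hm]) fun i h1 h2 => ?_
  rw [List.getElem_zipWith]
  simp only [vec, List.getElem_map, List.getElem_range]
  rw [List.getD_eq_getElem _ _ (by simpa [hm] using h1)]

theorem sg_holds (y : List Bool) (e : List Bool × Bool) :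
    (if holds y e then (1 : ℝ) else -1) =
      sg (par (List.zipWith (fun s t => s && t) e.1 y)) * sg e.2 := by
  unfold holds
  cases par (List.zipWith (fun s t => s && t) e.1 y) <;> cases e.2 <;> simp

/-- The parity in characteristic two. -/
theorem sum_par {A : Type} [CommRing A] (h2 : (2 : A) = 0) (F : ℕ → Bool) (t : A) : ∀ n : ℕ,
    (∑ i ∈ Finset.range n, if F i then t else 0) = if par (vec n F) then t else 0
  | 0 => by simp [vec, par]
  | n + 1 => by
    have e : par (vec (n + 1) F) = (par (vec n F) ^^ F n) := by
      have : ∀ (l : List Bool) (b : Bool), par (l ++ [b]) = (par l ^^ b) := by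
        intro l b
        induction l with
        | nil => simp [par]
        | cons a l ih =>
          change (a ^^ par (l ++ [b])) = ((a ^^ par l) ^^ b)
          rw [ih, Bool.xor_assoc]
      rw [vec, List.range_succ, List.map_append, List.map_singleton, this]
      rfl
    rw [Finset.sum_range_succ, sum_par h2 F t n, e, ite_xor h2]

/-- The list of the values. -/
def toL {r : ℕ} (g : Fin r → Bool) : List Bool := List.ofFn g

@[simp] theorem toL_length {r : ℕ} (g : Fin r → Bool) : (toL g).length = r := by simp [toL]

theorem toL_getD {r : ℕ} (g : Fin r → Bool) (i : Fin r) : (toL g).getD i false = g i := by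
  rw [List.getD_eq_getElem _ _ (by simp)]
  simp [toL]

/-- The sum over the second parameter. -/
theorem sum_beta {r M : ℕ} (γ : ℕ → List Bool) (m : List Bool) :
    ∑ β : Fin r → Bool, ∏ i ∈ Finset.range M, sg (m.getD i false && ip r (toL β) (γ i)) =
      if ∀ j < r, par (vec M fun i => m.getD i false && (γ i).getD j false) = false then 2 ^ r
      else 0 := by
  have h1 : ∀ β : Fin r → Bool, (∏ i ∈ Finset.range M, sg (m.getD i false && ip r (toL β) (γ i))) =
      ∏ j : Fin r, sg (β j && par (vec M fun i => m.getD i false && (γ i).getD j false)) := by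
    intro β
    have h2 : ∀ i, sg (m.getD i false && ip r (toL β) (γ i)) =
        ∏ j : Fin r, sg (β j && (m.getD i false && (γ i).getD j false)) := by
      intro i
      cases m.getD i false with
      | false => simp
      | true =>
        simp only [Bool.true_and]
        rw [ip, sg_par_vec, Finset.prod_range]
        exact Finset.prod_congr rfl fun j _ => by rw [toL_getD]
    rw [Finset.prod_congr rfl fun i _ => h2 i, Finset.prod_comm]
    refine Finset.prod_congr rfl fun j _ => ?_
    cases β j with
    | false => simp
    | true =>
      simp only [Bool.true_and]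
      rw [sg_par_vec]
  rw [Finset.sum_congr rfl fun β _ => h1 β]
  have h3 := Finset.prod_univ_sum (fun _ : Fin r => (Finset.univ : Finset Bool))
    (fun (j : Fin r) (b : Bool) => sg (b && par (vec M fun i => m.getD i false &&
      (γ i).getD j false)))
  rw [Fintype.piFinset_univ] at h3
  rw [← h3]
  split_ifs with h
  · rw [Finset.prod_congr rfl (g := fun _ => (2 : ℝ))]
    · simp
    · intro j _
      rw [h j j.2]
      simp
  · push Not at h
    obtain ⟨j, hj, h4⟩ := h
    refine Finset.prod_eq_zero (Finset.mem_univ (⟨j, hj⟩ : Fin r)) ?_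
    rw [Bool.ne_false_iff] at h4
    simp only [h4]
    simp

variable {A : Type} [CommRing A] [Algebra (ZMod 2) A]

/-- Coordinates as an equivalence. -/
noncomputable def eqv (pb : PowerBasis (ZMod 2) A) : (Fin pb.dim → Bool) ≃ A := by
  refine Equiv.ofBijective (fun g => ph pb.gen pb.dim (toL g)) ⟨fun g g' h => ?_, fun x => ?_⟩
  · have h1 : ph pb.gen pb.dim (xl pb.dim (toL g) (toL g')) = 0 := by
      rw [ph_xl two_eq_zero]
      simp only at h
      rw [h, ← two_mul, two_eq_zero, zero_mul]
    have h2 := ph_eq_zero pb (xl_length _ _ _) h1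
    funext i
    have h3 := h2 ((xl pb.dim (toL g) (toL g')).getD i false) (by
      rw [List.getD_eq_getElem _ _ (by rw [xl_length]; exact i.2)]
      exact List.getElem_mem _)
    rw [xl, vec_getD _ i.2, toL_getD, toL_getD] at h3
    cases hg : g i <;> cases hg' : g' i <;> simp [hg, hg'] at h3 ⊢
  · obtain ⟨a, ha, rfl⟩ := ph_surj pb x
    refine ⟨fun i => a.getD i false, ?_⟩
    simp only
    congr 1
    refine List.ext_getElem (by simp [ha]) fun i h1 h2 => ?_
    simp only [toL, List.getElem_ofFn]
    rw [List.getD_eq_getElem _ _ h2]

theorem eqv_apply (pb : PowerBasis (ZMod 2) A) (g : Fin pb.dim → Bool) :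
    eqv pb g = ph pb.gen pb.dim (toL g) := rfl

/-- Small bias. -/
theorem bias [NoZeroDivisors A] (pb : PowerBasis (ZMod 2) A) (hr : 0 < pb.dim) {f : List Bool}
    (hf : pb.gen ^ pb.dim = ph pb.gen pb.dim f) {M : ℕ} {m : List Bool} (hm : m.length = M)
    (hm2 : true ∈ m) :
    |∑ α : Fin pb.dim → Bool, ∑ β : Fin pb.dim → Bool,
      sg (par (vec M fun i => m.getD i false && wd pb.dim f (toL α) (toL β) i))| ≤
        M * 2 ^ pb.dim := by
  classical
  have hnt : Nontrivial A := by
    by_contra hcon
    rw [not_nontrivial_iff_subsingleton] at hcon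
    have h1 : (ph pb.gen pb.dim (one pb.dim) : A) = 0 := Subsingleton.elim _ _
    have h2 := ph_eq_zero pb (by simp [one]) h1 true (by
      unfold one vec
      rw [List.mem_map]
      exact ⟨0, List.mem_range.2 hr, rfl⟩)
    simp at h2
  have hdom : IsDomain A := { (inferInstance : NoZeroDivisors A), hnt with }
  set P : Polynomial A := ∑ i ∈ Finset.range M, if m.getD i false then Polynomial.X ^ i else 0
    with hP
  have hcoef : ∀ i < M, P.coeff i = if m.getD i false then 1 else 0 := by
    intro i hi
    rw [hP, Polynomial.finsetSum_coeff, Finset.sum_eq_single i]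
    · split_ifs <;> simp
    · intro j _ hj
      split_ifs
      · rw [Polynomial.coeff_X_pow, if_neg hj.symm]
      · simp
    · intro h
      exact absurd (Finset.mem_range.2 hi) h
  have hP0 : P ≠ 0 := by
    intro h
    obtain ⟨i, hi, h1⟩ := List.getElem_of_mem hm2
    have h2 := hcoef i (by omega)
    rw [h, Polynomial.coeff_zero, List.getD_eq_getElem _ _ hi, h1] at h2
    simp at h2
  have hdeg : P.natDegree ≤ M := by
    rw [hP]
    refine Polynomial.natDegree_sum_le_of_forall_le _ _ fun i hi => ?_
    rw [Finset.mem_range] at hi
    split_ifs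
    · rw [Polynomial.natDegree_X_pow]
      omega
    · simp
  have hinner : ∀ α : Fin pb.dim → Bool, (∑ β : Fin pb.dim → Bool,
      sg (par (vec M fun i => m.getD i false && wd pb.dim f (toL α) (toL β) i))) =
      if ∀ j < pb.dim, par (vec M fun i => m.getD i false &&
        (pw pb.dim f (toL α) i).getD j false) = false then 2 ^ pb.dim else 0 := by
    intro α
    rw [← sum_beta]
    refine Finset.sum_congr rfl fun β _ => ?_
    rw [sg_par_vec]
    rfl
  have hle : ∀ α : Fin pb.dim → Bool, |∑ β : Fin pb.dim → Bool,
      sg (par (vec M fun i => m.getD i false && wd pb.dim f (toL α) (toL β) i))| ≤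
      if P.eval (eqv pb α) = 0 then 2 ^ pb.dim else 0 := by
    intro α
    rw [hinner α]
    split_ifs with h1 h2 h2
    · rw [abs_of_nonneg (by positivity)]
    · exfalso
      apply h2
      rw [hP, Polynomial.eval_finsetSum]
      have h3 : ∀ i ∈ Finset.range M, Polynomial.eval (eqv pb α)
          (if m.getD i false then Polynomial.X ^ i else 0) =
          ∑ j ∈ Finset.range pb.dim, if (m.getD i false && (pw pb.dim f (toL α) i).getD j false)
            then pb.gen ^ j else 0 := by
        intro i _
        cases m.getD i false with
        | false => simp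
        | true =>
          simp only [Bool.true_and, if_true, Polynomial.eval_pow, Polynomial.eval_X]
          rw [eqv_apply, ← ph_pw two_eq_zero hr hf _ (by simp)]
          rfl
      rw [Finset.sum_congr rfl h3, Finset.sum_comm]
      refine Finset.sum_eq_zero fun j hj => ?_
      rw [sum_par two_eq_zero, h1 j (Finset.mem_range.1 hj)]
      simp
    · simp
    · simp
  refine (Finset.abs_sum_le_sum_abs _ _).trans ((Finset.sum_le_sum fun α _ => hle α).trans ?_)
  rw [← Finset.sum_filter, Finset.sum_const, nsmul_eq_mul]
  refine mul_le_mul_of_nonneg_right ?_ (by positivity)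
  have h4 : (Finset.univ.filter fun α : Fin pb.dim → Bool => P.eval (eqv pb α) = 0).card ≤ M := by
    calc _ = ((Finset.univ.filter fun α : Fin pb.dim → Bool => P.eval (eqv pb α) = 0).image
          (eqv pb)).card := (Finset.card_image_of_injective _ (eqv pb).injective).symm
      _ ≤ P.roots.toFinset.card := by
        refine Finset.card_le_card fun x hx => ?_
        rw [Finset.mem_image] at hx
        obtain ⟨α, hα, rfl⟩ := hx
        rw [Finset.mem_filter] at hα
        rw [Multiset.mem_toFinset, Polynomial.mem_roots hP0]
        exact hα.2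
      _ ≤ Multiset.card P.roots := Multiset.toFinset_card_le _
      _ ≤ P.natDegree := Polynomial.card_roots' P
      _ ≤ M := hdeg
  exact_mod_cast h4

end Pool.Agent.Helper70K1.PP
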