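import Pool.Agent.Helper70K1.PP.Hash
import Pool.Agent.Helper70K1.SP.Prune

/-!
# Excluding a candidate
-/

set_option autoImplicit false

namespace Pool.Agent.Helper70K1.PP

open Finset
open Pool.Agent.Helper70K1.SP (tb tb_eq)

/-- A block of bits. -/
def blk (r k t : ℕ) : List Bool := vec r fun j => tb t (r * k + j)

/-- The hash value of `u` with the coefficients `t`. -/
def hh (r : ℕ) (f : List Bool) (c t off u : ℕ) : List Bool :=
  (List.range c).foldr (fun k acc => xl r (mul r f (blk r (off + k) t) (blk r k u)) acc) []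

/-- Both hash values. -/
def key (r : ℕ) (f : List Bool) (c t u : ℕ) : List Bool × List Bool :=
  (hh r f c t 0 u, hh r f c t c u)

/-- The word of a candidate. -/
def word (M r : ℕ) (f : List Bool) (c t u : ℕ) : List Bool :=
  vec M (wd r f (hh r f c t 0 u) (hh r f c t c u))

@[simp] theorem blk_length (r k t : ℕ) : (blk r k t).length = r := by simp [blk]

theorem hh_length {r c : ℕ} (hc : 0 < c) (f : List Bool) (t off u : ℕ) :
    (hh r f c t off u).length = r := by
  obtain ⟨s, rfl⟩ : ∃ s, c = s + 1 := ⟨c - 1, by omega⟩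
  unfold hh
  rw [List.range_succ_eq_map, List.foldr_cons]
  exact xl_length _ _ _

theorem ph_hh {A : Type} [CommRing A] {ξ : A} (h2 : (2 : A) = 0) {r : ℕ} (hr : 0 < r)
    {f : List Bool} (hf : ξ ^ r = ph ξ r f) (c t off u : ℕ) :
    ph ξ r (hh r f c t off u) =
      ∑ k ∈ range c, ph ξ r (blk r (off + k) t) * ph ξ r (blk r k u) := by
  have key : ∀ l : List ℕ, ph ξ r (l.foldr (fun k acc =>
      xl r (mul r f (blk r (off + k) t) (blk r k u)) acc) []) =
      (l.map fun k => ph ξ r (blk r (off + k) t) * ph ξ r (blk r k u)).sum := by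
    intro l
    induction l with
    | nil => simp [ph_nil]
    | cons k l ih =>
      rw [List.foldr_cons, ph_xl h2, ih, ph_mul h2 hr hf _ _ (blk_length _ _ _), List.map_cons,
        List.sum_cons]
  unfold hh
  rw [key]
  rfl

/-- A number with given bits. -/
theorem exists_bits (L : ℕ) (F : ℕ → Bool) : ∃ t < 2 ^ L, ∀ i < L, tb t i = F i := by
  refine ⟨Nat.ofBits (fun i : Fin L => F i), Nat.ofBits_lt_two_pow _, fun i hi => ?_⟩
  rw [tb_eq, Nat.testBit_ofBits_lt _ _ hi]

theorem blk_getD {r k t j : ℕ} (hj : j < r) : (blk r k t).getD j false = tb t (r * k + j) :=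
  vec_getD _ hj

/-- The blocks determine the number. -/
theorem blk_inj {r c u v : ℕ} (hr : 0 < r) (hu : u < 2 ^ (r * c)) (hv : v < 2 ^ (r * c))
    (h : ∀ k < c, blk r k u = blk r k v) : u = v := by
  refine Nat.eq_of_testBit_eq fun i => ?_
  by_cases hi : i < r * c
  · have h1 : i / r < c := Nat.div_lt_of_lt_mul hi
    have h2 : (blk r (i / r) u).getD (i % r) false = (blk r (i / r) v).getD (i % r) false := by
      rw [h _ h1]
    rw [blk_getD (Nat.mod_lt _ hr), blk_getD (Nat.mod_lt _ hr), Nat.div_add_mod, tb_eq, tb_eq] at h2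
    exact h2
  · have h2 : ∀ w < 2 ^ (r * c), w.testBit i = false := fun w hw =>
      Nat.testBit_lt_two_pow (lt_of_lt_of_le hw (Nat.pow_le_pow_right (by norm_num) (by omega)))
    rw [h2 u hu, h2 v hv]

/-- A number with given blocks. -/
theorem exists_blk {r n : ℕ} (hr : 0 < r) (g : ℕ → List Bool) (hg : ∀ k < n, (g k).length = r) :
    ∃ t < 2 ^ (r * n), ∀ k < n, blk r k t = g k := by
  obtain ⟨t, ht, h⟩ := exists_bits (r * n) fun i => (g (i / r)).getD (i % r) false
  refine ⟨t, ht, fun k hk => ?_⟩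
  refine List.ext_getElem (by simp [hg k hk]) fun j h1 h2 => ?_
  rw [blk_length] at h1
  have h3 := blk_getD (k := k) (t := t) h1
  rw [List.getD_eq_getElem _ _ (by simpa using h1)] at h3
  rw [h3, h]
  · rw [Nat.mul_add_div hr, Nat.div_eq_of_lt h1, add_zero, Nat.mul_add_mod, Nat.mod_eq_of_lt h1,
      List.getD_eq_getElem _ _ h2]
  · calc r * k + j < r * k + r := by omega
      _ = r * (k + 1) := by ring
      _ ≤ r * n := Nat.mul_le_mul_left _ hk

section

variable {A : Type} [CommRing A] [Algebra (ZMod 2) A]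

theorem ph_inj (pb : PowerBasis (ZMod 2) A) {a b : List Bool} (ha : a.length = pb.dim)
    (hb : b.length = pb.dim) (h : ph pb.gen pb.dim a = ph pb.gen pb.dim b) : a = b := by
  have h1 : ∀ c : List Bool, c.length = pb.dim → c = toL (fun i : Fin pb.dim => c.getD i false) := by
    intro c hc
    refine List.ext_getElem (by simp [hc]) fun i h1 h2 => ?_
    simp only [toL, List.getElem_ofFn]
    rw [List.getD_eq_getElem _ _ h1]
  have h2 : eqv pb (fun i => a.getD i false) = eqv pb (fun i => b.getD i false) := by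
    rw [eqv_apply, eqv_apply, ← h1 a ha, ← h1 b hb, h]
  rw [h1 a ha, h1 b hb, (eqv pb).injective h2]

theorem toL_eqv (pb : PowerBasis (ZMod 2) A) {a : List Bool} (ha : a.length = pb.dim) :
    toL ((eqv pb).symm (ph pb.gen pb.dim a)) = a := by
  refine ph_inj pb (by simp) ha ?_
  rw [← eqv_apply, Equiv.apply_symm_apply]

theorem card_eqv (pb : PowerBasis (ZMod 2) A) [Fintype A] : Fintype.card A = 2 ^ pb.dim := by
  rw [← Fintype.card_congr (eqv pb), Fintype.card_fun, Fintype.card_bool, Fintype.card_fin]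

end

/-- The number of collisions of the hash values. -/
def coll (r : ℕ) (f : List Bool) (c t : ℕ) (V : Finset ℕ) : ℕ :=
  ((V ×ˢ V).filter fun p => key r f c t p.1 = key r f c t p.2).card

theorem isDomain_of {A : Type} [CommRing A] [Algebra (ZMod 2) A] (pb : PowerBasis (ZMod 2) A)
    (hr : 0 < pb.dim) (h : NoZeroDivisors A) : IsDomain A := by
  have hnt : Nontrivial A := by
    by_contra hcon
    rw [not_nontrivial_iff_subsingleton] at hcon
    have h1 : (ph pb.gen pb.dim (one pb.dim) : A) = 0 := Subsingleton.elim _ _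
    have h2 := ph_eq_zero pb (by simp [one]) h1 true (by
      unfold one vec
      rw [List.mem_map]
      exact ⟨0, List.mem_range.2 hr, rfl⟩)
    simp at h2
  exact { h, hnt with }

/-- A good hash function exists. -/
theorem exists_t {r c : ℕ} (hr : 0 < r) (hc : 0 < c) {f : List Bool} (hf : f.length = r)
    (hz : NoZD r f) (V : Finset ℕ) (hV : ∀ u ∈ V, u < 2 ^ (r * c)) :
    ∃ t < 2 ^ (r * (2 * c)), 4 ^ r * coll r f c t V ≤ 4 ^ r * V.card + V.card ^ 2 := by
  classical
  obtain ⟨A, _, _, pb, rfl, hgen⟩ := exists_ring hr hf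
  have hdom := isDomain_of pb hr ((noZD_iff pb hr hgen).1 hz)
  let _ : Fintype A := Fintype.ofEquiv _ (eqv pb)
  set vv : ℕ → Fin c → A := fun u k => ph pb.gen pb.dim (blk pb.dim k u) with hvv
  obtain ⟨x, y, hxy⟩ := exists_hash V vv (by
    intro u hu v hv huv
    refine blk_inj hr (hV u hu) (hV v hv) fun k hk => ?_
    exact ph_inj pb (blk_length _ _ _) (blk_length _ _ _) (congrFun huv ⟨k, hk⟩))
  have h1 : ∀ z : A, ∃ a : List Bool, a.length = pb.dim ∧ ph pb.gen pb.dim a = z := ph_surj pb
  choose g hg1 hg2 using h1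
  obtain ⟨t, ht, htb⟩ := exists_blk (n := 2 * c) hr
    (fun k => if h : k < c then g (x ⟨k, h⟩) else if h : k - c < c then g (y ⟨k - c, h⟩) else
      one pb.dim) (by
        intro k _
        split_ifs
        · exact hg1 _
        · exact hg1 _
        · simp [one])
  refine ⟨t, ht, ?_⟩
  have hx : ∀ u, ph pb.gen pb.dim (hh pb.dim f c t 0 u) = ∑ k, x k * vv u k := by
    intro u
    rw [ph_hh two_eq_zero hr hgen, Finset.sum_range]
    refine Finset.sum_congr rfl fun k _ => ?_
    rw [zero_add, htb k (by omega), dif_pos k.2, hg2]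
  have hy : ∀ u, ph pb.gen pb.dim (hh pb.dim f c t c u) = ∑ k, y k * vv u k := by
    intro u
    rw [ph_hh two_eq_zero hr hgen, Finset.sum_range]
    refine Finset.sum_congr rfl fun k _ => ?_
    have e : c + (k : ℕ) - c = k := by omega
    rw [htb (c + k) (by omega), dif_neg (by omega), dif_pos (by omega), hg2]
    simp only [e, Fin.eta, hvv]
  have h2 : coll pb.dim f c t V = ((V ×ˢ V).filter fun p =>
      (∑ k, x k * vv p.1 k = ∑ k, x k * vv p.2 k) ∧
        ∑ k, y k * vv p.1 k = ∑ k, y k * vv p.2 k).card := by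
    unfold coll
    congr 1
    refine Finset.filter_congr fun p _ => ?_
    rw [← hx, ← hx, ← hy, ← hy, key, key, Prod.mk.injEq]
    constructor
    · rintro ⟨h3, h4⟩
      rw [h3, h4]
      exact ⟨rfl, rfl⟩
    · rintro ⟨h3, h4⟩
      exact ⟨ph_inj pb (hh_length hc _ _ _ _) (hh_length hc _ _ _ _) h3,
        ph_inj pb (hh_length hc _ _ _ _) (hh_length hc _ _ _ _) h4⟩
  rw [h2]
  have h3 : Fintype.card A ^ 2 = 4 ^ pb.dim := by
    rw [card_eqv pb, ← pow_mul, mul_comm, pow_mul]
    norm_num
  rwa [h3] at hxy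

/-- The number of correct statements. -/
def cor (E : List (List Bool × Bool)) (y : List Bool) : ℕ := (E.filter (holds y)).length

theorem cor_sum (E : List (List Bool × Bool)) (y : List Bool) :
    2 * (cor E y : ℝ) - E.length = (E.map fun e => if holds y e then (1 : ℝ) else -1).sum := by
  unfold cor
  induction E with
  | nil => simp
  | cons e E ih =>
    rw [List.map_cons, List.sum_cons, ← ih, List.filter_cons, List.length_cons]
    split_ifs
    · rw [List.length_cons]
      push_cast
      ring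
    · push_cast
      ring

/-- **Exclusion.** Some candidate does not satisfy enough statements. -/
theorem exclude {r c M : ℕ} (hr : 0 < r) (hc : 0 < c) {f : List Bool} (hf : f.length = r)
    (hz : NoZD r f) (V : Finset ℕ) {t : ℕ} (ht : 4 ^ r * coll r f c t V ≤ 4 ^ r * V.card + V.card ^ 2)
    (hM : 2 * M ^ 2 ≤ 2 ^ r) (hV : M ^ 2 * 4 ^ r < V.card) {E : List (List Bool × Bool)}
    (hE : E ≠ []) (hE2 : ∀ e ∈ E, e.1.length = M ∧ true ∈ e.1) :
    ∃ v ∈ V, 2 * M * cor E (word M r f c t v) < (M + 2) * E.length := by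
  classical
  obtain ⟨A, _, _, pb, rfl, hgen⟩ := exists_ring hr hf
  have hnz := (noZD_iff pb hr hgen).1 hz
  let _ : Fintype A := Fintype.ofEquiv _ (eqv pb)
  have hM0 : 0 < M := by
    obtain ⟨e, l, rfl⟩ := List.exists_cons_of_ne_nil hE
    obtain ⟨h1, h2⟩ := hE2 e List.mem_cons_self
    rw [← h1]
    exact List.length_pos_of_mem h2
  by_contra hcon
  push Not at hcon
  set h : ℕ → A × A := fun v => (ph pb.gen pb.dim (hh pb.dim f c t 0 v),
    ph pb.gen pb.dim (hh pb.dim f c t c v)) with hh'
  have hcard : (Fintype.card (A × A) : ℝ) = 4 ^ pb.dim := by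
    rw [Fintype.card_prod, card_eqv pb]
    push_cast
    rw [← mul_pow]
    norm_num
  have hcoll : (Fintype.card (A × A) : ℝ) * ((V ×ˢ V).filter fun p => h p.1 = h p.2).card ≤
      Fintype.card (A × A) * V.card + (V.card : ℝ) ^ 2 := by
    rw [hcard]
    have h2 : ((V ×ˢ V).filter fun p => h p.1 = h p.2).card = coll pb.dim f c t V := by
      unfold coll
      congr 1
      refine Finset.filter_congr fun p _ => ?_
      rw [key, key, Prod.mk.injEq, Prod.mk.injEq]
      constructor
      · rintro ⟨h3, h4⟩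
        exact ⟨ph_inj pb (hh_length hc _ _ _ _) (hh_length hc _ _ _ _) h3,
          ph_inj pb (hh_length hc _ _ _ _) (hh_length hc _ _ _ _) h4⟩
      · rintro ⟨h3, h4⟩
        rw [h3, h4]
        exact ⟨rfl, rfl⟩
    rw [h2]
    exact_mod_cast ht
  -- the test functions
  set F : List Bool × Bool → A × A → ℝ := fun e d =>
    sg (par (vec M fun i => e.1.getD i false && wd pb.dim f (toL ((eqv pb).symm d.1))
      (toL ((eqv pb).symm d.2)) i)) * sg e.2 with hF
  have hsg : ∀ b, sg b ^ 2 = 1 := by intro b; cases b <;> simp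
  have hFsq : ∀ e d, F e d ^ 2 ≤ 1 := by
    intro e d
    rw [hF]
    simp only
    rw [mul_pow, hsg, hsg]
    norm_num
  have hFsum : ∀ e ∈ E, ∑ d, F e d ≤ M * 2 ^ pb.dim := by
    intro e he
    obtain ⟨h1, h2⟩ := hE2 e he
    have h3 : ∑ d, F e d = (∑ α : Fin pb.dim → Bool, ∑ β : Fin pb.dim → Bool,
        sg (par (vec M fun i => e.1.getD i false && wd pb.dim f (toL α) (toL β) i))) * sg e.2 := by
      rw [Fintype.sum_prod_type, ← Equiv.sum_comp (eqv pb), Finset.sum_mul]
      refine Finset.sum_congr rfl fun α _ => ?_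
      rw [← Equiv.sum_comp (eqv pb), Finset.sum_mul]
      refine Finset.sum_congr rfl fun β _ => ?_
      simp only [hF, Equiv.symm_apply_apply]
    rw [h3]
    refine (le_abs_self _).trans ?_
    rw [abs_mul]
    have h4 : |sg e.2| = 1 := by cases e.2 <;> simp
    rw [h4, mul_one]
    exact bias pb hr hgen h1 h2
  have hFv : ∀ e ∈ E, ∀ v, F e (h v) = if holds (word M pb.dim f c t v) e then (1 : ℝ) else -1 := by
    intro e he v
    rw [sg_holds, word, zipWith_vec (hE2 e he).1]
    simp only [hF, hh']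
    rw [toL_eqv pb (hh_length hc _ _ _ _), toL_eqv pb (hh_length hc _ _ _ _)]
  -- the sum over all candidates and all statements
  have h1 : ∑ v ∈ V, (2 * (cor E (word M pb.dim f c t v) : ℝ) - E.length) ≤
      E.length * (V.card * (M * 2 ^ pb.dim) / 4 ^ pb.dim + Real.sqrt (4 ^ pb.dim * V.card)) := by
    have h2 : ∑ v ∈ V, (2 * (cor E (word M pb.dim f c t v) : ℝ) - E.length) =
        (E.map fun e => ∑ v ∈ V, if holds (word M pb.dim f c t v) e then (1 : ℝ) else -1).sum := by
      rw [Finset.sum_congr rfl fun v _ => cor_sum E _]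
      clear hFv hFsum hcon hE2 hE
      induction E with
      | nil => simp
      | cons e E ih => simp only [List.map_cons, List.sum_cons, Finset.sum_add_distrib, ih]
    rw [h2]
    have h3 : ∀ x ∈ (E.map fun e => ∑ v ∈ V, if holds (word M pb.dim f c t v) e then (1 : ℝ) else -1),
        x ≤ V.card * (M * 2 ^ pb.dim) / 4 ^ pb.dim + Real.sqrt (4 ^ pb.dim * V.card) := by
      intro x hx
      obtain ⟨e, he, rfl⟩ := List.mem_map.1 hx
      have h4 := sum_le_of_coll V h hcoll (F e) (hFsq e) (hFsum e he)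
      rw [hcard] at h4
      rwa [Finset.sum_congr rfl fun v _ => hFv e he v] at h4
    have h4 := List.sum_le_card_nsmul _ _ h3
    rwa [List.length_map, nsmul_eq_mul] at h4
  have hEl : (0 : ℝ) < E.length := by
    have := List.length_pos_iff.2 hE
    exact_mod_cast this
  have h2 : (V.card : ℝ) * (2 / M * E.length) ≤
      ∑ v ∈ V, (2 * (cor E (word M pb.dim f c t v) : ℝ) - E.length) := by
    rw [← nsmul_eq_mul, ← Finset.sum_const]
    refine Finset.sum_le_sum fun v hv => ?_
    have h3 := hcon v hv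
    have h4 : ((M : ℝ) + 2) * E.length ≤ 2 * M * cor E (word M pb.dim f c t v) := by
      exact_mod_cast h3
    have hM1 : (0 : ℝ) < M := by exact_mod_cast hM0
    rw [div_mul_eq_mul_div, div_le_iff₀ hM1]
    nlinarith
  have h3 := h2.trans h1
  have hM1 : (0 : ℝ) < M := by exact_mod_cast hM0
  set N : ℝ := (V.card : ℝ) with hN
  set R : ℝ := 2 ^ pb.dim with hR
  have hR0 : 0 < R := by positivity
  have h4R : (4 : ℝ) ^ pb.dim = R * R := by
    rw [hR, ← mul_pow]
    norm_num
  have hMR : 2 * (M : ℝ) ^ 2 ≤ R := by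
    rw [hR]
    exact_mod_cast hM
  have hNR : (M : ℝ) ^ 2 * (R * R) < N := by
    rw [← h4R, hN]
    exact_mod_cast hV
  have hN0 : 0 < N := lt_of_le_of_lt (by positivity) hNR
  rw [h4R] at h3
  have h4 : N * (M * R) / (R * R) ≤ N * (1 / (2 * M)) := by
    rw [show N * (M * R) / (R * R) = N * (M / R) by field_simp]
    refine mul_le_mul_of_nonneg_left ?_ hN0.le
    rw [div_le_div_iff₀ hR0 (by positivity)]
    nlinarith
  have h5 : Real.sqrt (R * R * N) < N * (1 / M) := by
    rw [Real.sqrt_lt' (by positivity)]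
    have : (N * (1 / M)) ^ 2 = N * N / M ^ 2 := by field_simp
    rw [this, lt_div_iff₀ (by positivity)]
    nlinarith
  have h6 : N * (2 / M * E.length) < E.length * (N * (1 / (2 * M)) + N * (1 / M)) :=
    lt_of_le_of_lt h3 (mul_lt_mul_of_pos_left (by linarith) hEl)
  have h7 : (E.length : ℝ) * (N * (1 / (2 * M)) + N * (1 / M)) = N * (3 / 2 / M * E.length) := by
    field_simp
    ring
  rw [h7] at h6
  have h8 := lt_of_mul_lt_mul_left h6 hN0.le
  have h9 := lt_of_mul_lt_mul_right h8 hEl.le
  rw [div_lt_div_iff_of_pos_right hM1] at h9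
  norm_num at h9

end Pool.Agent.Helper70K1.PP
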