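import Mathlib

/-!
# Arithmetic in finite extensions of the field with two elements, on lists of booleans
-/

set_option autoImplicit false

namespace Pool.Agent.Helper70K1.PP

/-- The list of the first `r` values. -/
def vec (r : ℕ) (F : ℕ → Bool) : List Bool := (List.range r).map F

@[simp] theorem vec_length (r : ℕ) (F : ℕ → Bool) : (vec r F).length = r := by simp [vec]

theorem vec_getD {r i : ℕ} (F : ℕ → Bool) (h : i < r) : (vec r F).getD i false = F i := by
  rw [List.getD_eq_getElem _ _ (by simpa using h)]
  simp [vec]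

theorem vec_getD_ge {r i : ℕ} (F : ℕ → Bool) (h : r ≤ i) : (vec r F).getD i false = false := by
  rw [List.getD_eq_default _ _ (by simpa using h)]

/-- Sum. -/
def xl (r : ℕ) (a b : List Bool) : List Bool := vec r fun i => a.getD i false ^^ b.getD i false

/-- Multiplication with the generator; `f` are the coefficients of its power number `r`. -/
def mulX (r : ℕ) (f a : List Bool) : List Bool :=
  vec r fun i => (!decide (i = 0) && a.getD (i - 1) false) ^^ (a.getD (r - 1) false && f.getD i false)

/-- Multiplication. -/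
def mul (r : ℕ) (f a b : List Bool) : List Bool :=
  b.foldr (fun t acc => xl r (mulX r f acc) (if t then a else [])) []

/-- The unit. -/
def one (r : ℕ) : List Bool := vec r fun i => decide (i = 0)

/-- Powers. -/
def pw (r : ℕ) (f a : List Bool) (i : ℕ) : List Bool :=
  i.bits.foldr (fun t acc => if t then mul r f (mul r f acc acc) a else mul r f acc acc) (one r)

section

variable {A : Type} [CommRing A] (ξ : A)

/-- The element with given coordinates. -/
def ph (r : ℕ) (a : List Bool) : A := ∑ i ∈ Finset.range r, if a.getD i false then ξ ^ i else 0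

variable {ξ}

theorem ph_vec (r : ℕ) (F : ℕ → Bool) :
    ph ξ r (vec r F) = ∑ i ∈ Finset.range r, if F i then ξ ^ i else 0 := by
  unfold ph
  refine Finset.sum_congr rfl fun i hi => ?_
  rw [vec_getD F (Finset.mem_range.1 hi)]

theorem ite_xor (h2 : (2 : A) = 0) (x y : Bool) (t : A) :
    (if (x ^^ y) then t else 0) = (if x then t else 0) + (if y then t else 0) := by
  have h : t + t = 0 := by rw [← two_mul, h2, zero_mul]
  cases x <;> cases y <;> simp [h]

theorem ph_xl (h2 : (2 : A) = 0) (r : ℕ) (a b : List Bool) :
    ph ξ r (xl r a b) = ph ξ r a + ph ξ r b := by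
  unfold xl
  rw [ph_vec, ph, ph, ← Finset.sum_add_distrib]
  exact Finset.sum_congr rfl fun i _ => ite_xor h2 _ _ _

theorem ph_nil (r : ℕ) : ph ξ r [] = 0 := by
  unfold ph
  exact Finset.sum_eq_zero fun i _ => by simp

theorem ph_mulX (h2 : (2 : A) = 0) {r : ℕ} (hr : 0 < r) {f : List Bool} (hf : ξ ^ r = ph ξ r f)
    (a : List Bool) : ph ξ r (mulX r f a) = ξ * ph ξ r a := by
  obtain ⟨s, rfl⟩ : ∃ s, r = s + 1 := ⟨r - 1, by omega⟩
  unfold mulX
  rw [ph_vec]
  have h1 : ∀ i ∈ Finset.range (s + 1), (if ((!decide (i = 0) && a.getD (i - 1) false) ^^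
      (a.getD (s + 1 - 1) false && f.getD i false)) then ξ ^ i else 0) =
      (if (!decide (i = 0) && a.getD (i - 1) false) then ξ ^ i else 0) +
      (if a.getD s false then (1 : A) else 0) * (if f.getD i false then ξ ^ i else 0) := by
    intro i _
    rw [ite_xor h2, Nat.add_sub_cancel]
    congr 1
    cases a.getD s false <;> cases f.getD i false <;> simp
  rw [Finset.sum_congr rfl h1, Finset.sum_add_distrib, ← Finset.mul_sum]
  have h3 : (∑ i ∈ Finset.range (s + 1), if f.getD i false then ξ ^ i else 0) = ξ ^ (s + 1) := hf.symm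
  rw [h3, Finset.sum_range_succ']
  unfold ph
  rw [Finset.mul_sum, Finset.sum_range_succ]
  have h4 : ∀ i ∈ Finset.range s, (if (!decide (i + 1 = 0) && a.getD (i + 1 - 1) false) then
      ξ ^ (i + 1) else 0) = ξ * (if a.getD i false then ξ ^ i else 0) := by
    intro i _
    rw [Nat.add_sub_cancel]
    cases a.getD i false <;> simp [pow_succ, mul_comm]
  rw [Finset.sum_congr rfl h4]
  simp only [decide_true, Bool.not_true, Bool.false_and, Bool.false_eq_true, if_false, add_zero]
  congr 1
  cases a.getD s false <;> simp [pow_succ, mul_comm]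

/-- The value of a list of arbitrary length. -/
theorem ph_mul_aux (h2 : (2 : A) = 0) {r : ℕ} (hr : 0 < r) {f : List Bool}
    (hf : ξ ^ r = ph ξ r f) (a : List Bool) : ∀ b : List Bool,
    ph ξ r (mul r f a b) = ph ξ r a * ph ξ b.length b
  | [] => by simp [mul, ph]
  | t :: b => by
    have ih := ph_mul_aux h2 hr hf a b
    have e : mul r f a (t :: b) = xl r (mulX r f (mul r f a b)) (if t then a else []) := rfl
    rw [e, ph_xl h2, ph_mulX h2 hr hf, ih]
    have h3 : ph ξ (t :: b).length (t :: b) = ξ * ph ξ b.length b + if t then 1 else 0 := by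
      unfold ph
      rw [List.length_cons, Finset.sum_range_succ', Finset.mul_sum]
      congr 1
      · refine Finset.sum_congr rfl fun i _ => ?_
        rw [List.getD_cons_succ]
        cases b.getD i false <;> simp [pow_succ, mul_comm]
      · simp
    rw [h3, mul_add, mul_left_comm]
    congr 1
    cases t <;> simp [ph_nil]

theorem ph_mul (h2 : (2 : A) = 0) {r : ℕ} (hr : 0 < r) {f : List Bool}
    (hf : ξ ^ r = ph ξ r f) (a b : List Bool) (hb : b.length = r) :
    ph ξ r (mul r f a b) = ph ξ r a * ph ξ r b := by
  rw [ph_mul_aux h2 hr hf, hb]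

theorem xl_length (r : ℕ) (a b : List Bool) : (xl r a b).length = r := by simp [xl]

theorem mul_length (r : ℕ) (f a b : List Bool) (hb : b ≠ []) : (mul r f a b).length = r := by
  cases b with
  | nil => exact absurd rfl hb
  | cons t b => exact xl_length _ _ _

theorem ph_one {r : ℕ} (hr : 0 < r) : ph ξ r (one r) = 1 := by
  unfold one
  rw [ph_vec, Finset.sum_eq_single 0]
  · simp
  · intro i _ hi
    simp [hi]
  · intro h
    exact absurd (Finset.mem_range.2 hr) h

theorem pw_length {r : ℕ} (hr : 0 < r) (f a : List Bool) (ha : a.length = r) (i : ℕ) :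
    (pw r f a i).length = r := by
  unfold pw
  induction i.bits with
  | nil => simp [one]
  | cons t l ih =>
    rw [List.foldr_cons]
    have h1 : (List.foldr (fun t acc => if t = true then mul r f (mul r f acc acc) a else
      mul r f acc acc) (one r) l) ≠ [] := by
      intro h
      rw [h] at ih
      simp at ih
      omega
    split_ifs
    · exact mul_length _ _ _ _ (by intro h; rw [h] at ha; simp at ha; omega)
    · exact mul_length _ _ _ _ h1

theorem ph_pw (h2 : (2 : A) = 0) {r : ℕ} (hr : 0 < r) {f : List Bool}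
    (hf : ξ ^ r = ph ξ r f) (a : List Bool) (ha : a.length = r) (i : ℕ) :
    ph ξ r (pw r f a i) = ph ξ r a ^ i := by
  have key : ∀ l : List Bool,
      (List.foldr (fun t acc => if t = true then mul r f (mul r f acc acc) a else
        mul r f acc acc) (one r) l).length = r ∧
      ph ξ r (List.foldr (fun t acc => if t = true then mul r f (mul r f acc acc) a else
        mul r f acc acc) (one r) l) = ph ξ r a ^ (l.foldr (fun t n => 2 * n + t.toNat) 0) := by
    intro l
    induction l with
    | nil => exact ⟨by simp [one], by simp [ph_one hr]⟩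
    | cons t l ih =>
      obtain ⟨ih1, ih2⟩ := ih
      rw [List.foldr_cons, List.foldr_cons]
      set s := List.foldr (fun t acc => if t = true then mul r f (mul r f acc acc) a else
        mul r f acc acc) (one r) l with hs
      have hs0 : s ≠ [] := by
        intro h
        rw [h] at ih1
        simp at ih1
        omega
      have ha0 : a ≠ [] := by
        intro h
        rw [h] at ha
        simp at ha
        omega
      have h3 := mul_length r f s s hs0
      have h4 := mul_length r f (mul r f s s) a ha0
      have h5 : ph ξ r (mul r f s s) = ph ξ r a ^ (2 * (l.foldr (fun t n => 2 * n + t.toNat) 0)) := by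
        rw [ph_mul h2 hr hf _ _ ih1, ih2, ← pow_add, two_mul]
      cases t with
      | true =>
        simp only [if_true, Bool.toNat_true]
        refine ⟨h4, ?_⟩
        rw [ph_mul h2 hr hf _ _ ha, h5, pow_succ]
      | false =>
        simp only [Bool.false_eq_true, if_false, Bool.toNat_false, add_zero]
        exact ⟨h3, h5⟩
  have h3 : ∀ n : ℕ, n.bits.foldr (fun t n => 2 * n + t.toNat) 0 = n := by
    intro n
    induction n using Nat.binaryRec' with
    | zero => simp
    | bit b n h ih =>
      rw [Nat.bits_append_bit _ _ h, List.foldr_cons, ih, Nat.bit_val]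
  unfold pw
  rw [(key i.bits).2, h3]

end

/-! ### The field -/

/-- The fact that the multiplication has no zero divisors. -/
def NoZD (r : ℕ) (f : List Bool) : Prop :=
  ∀ a b : List Bool, a.length = r → b.length = r → (∀ t ∈ mul r f a b, t = false) →
    (∀ t ∈ a, t = false) ∨ ∀ t ∈ b, t = false

section

variable {A : Type} [CommRing A] [Algebra (ZMod 2) A]

theorem two_eq_zero : (2 : A) = 0 := by
  have h := congrArg (algebraMap (ZMod 2) A) (by decide : (1 : ZMod 2) + 1 = 0)
  rw [map_add, map_one, map_zero] at h
  rw [← one_add_one_eq_two]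
  exact h

/-- Coordinates with respect to a power basis. -/
theorem ph_eq_zero (pb : PowerBasis (ZMod 2) A) {a : List Bool} (ha : a.length = pb.dim)
    (h : ph pb.gen pb.dim a = 0) : ∀ t ∈ a, t = false := by
  have h1 : ∑ i : Fin pb.dim, (if a.getD i false then (1 : ZMod 2) else 0) • pb.basis i = 0 := by
    rw [← h]
    unfold ph
    rw [Finset.sum_range]
    refine Finset.sum_congr rfl fun i _ => ?_
    rw [pb.basis_eq_pow]
    split_ifs <;> simp
  have h2 := Fintype.linearIndependent_iff.1 pb.basis.linearIndependent _ h1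
  intro t ht
  obtain ⟨i, hi, rfl⟩ := List.getElem_of_mem ht
  have h3 := h2 ⟨i, by omega⟩
  simp only at h3
  rw [List.getD_eq_getElem _ _ hi] at h3
  by_contra hcon
  rw [Bool.not_eq_false] at hcon
  rw [hcon] at h3
  simp at h3

theorem ph_surj (pb : PowerBasis (ZMod 2) A) (x : A) :
    ∃ a : List Bool, a.length = pb.dim ∧ ph pb.gen pb.dim a = x := by
  classical
  refine ⟨vec pb.dim fun i => if h : i < pb.dim then decide (pb.basis.repr x ⟨i, h⟩ = 1) else false,
    vec_length _ _, ?_⟩
  rw [ph_vec, Finset.sum_range]
  conv_rhs => rw [← pb.basis.sum_repr x]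
  refine Finset.sum_congr rfl fun i _ => ?_
  rw [pb.basis_eq_pow, dif_pos i.2]
  have h1 : ∀ z : ZMod 2, (if decide (z = 1) = true then pb.gen ^ (i : ℕ) else 0) =
      z • pb.gen ^ (i : ℕ) := by
    intro z
    have : z = 0 ∨ z = 1 := by
      revert z
      decide
    rcases this with rfl | rfl <;> simp
  exact h1 _

omit [Algebra (ZMod 2) A] in
theorem ph_zero_of {r : ℕ} {ξ : A} {a : List Bool} (h : ∀ t ∈ a, t = false) : ph ξ r a = 0 := by
  unfold ph
  refine Finset.sum_eq_zero fun i _ => ?_
  have : a.getD i false = false := by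
    by_cases hi : i < a.length
    · rw [List.getD_eq_getElem _ _ hi]
      exact h _ (List.getElem_mem _)
    · rw [List.getD_eq_default _ _ (by omega)]
  rw [this, if_neg (by decide)]

theorem noZD_iff (pb : PowerBasis (ZMod 2) A) (hr : 0 < pb.dim) {f : List Bool}
    (hf : pb.gen ^ pb.dim = ph pb.gen pb.dim f) :
    NoZD pb.dim f ↔ NoZeroDivisors A := by
  constructor
  · intro h
    refine ⟨fun {x y} hxy => ?_⟩
    obtain ⟨a, ha, rfl⟩ := ph_surj pb x
    obtain ⟨b, hb, rfl⟩ := ph_surj pb y
    rw [← ph_mul two_eq_zero hr hf _ _ hb] at hxy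
    have hb0 : b ≠ [] := by
      intro h
      rw [h] at hb
      simp at hb
      omega
    rcases h a b ha hb (ph_eq_zero pb (mul_length _ _ _ _ hb0) hxy) with h1 | h1
    · exact Or.inl (ph_zero_of h1)
    · exact Or.inr (ph_zero_of h1)
  · intro _ a b ha hb hab
    have h1 := ph_zero_of (r := pb.dim) (ξ := pb.gen) hab
    rw [ph_mul two_eq_zero hr hf _ _ hb] at h1
    rcases mul_eq_zero.1 h1 with h2 | h2
    · exact Or.inl (ph_eq_zero pb ha h2)
    · exact Or.inr (ph_eq_zero pb hb h2)

end

/-- A field exists for each positive number of coordinates. -/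
theorem exists_noZD {r : ℕ} (hr : 0 < r) : ∃ f : List Bool, f.length = r ∧ NoZD r f := by
  have : Fact (Nat.Prime 2) := ⟨Nat.prime_two⟩
  set K := GaloisField 2 r with hK
  have : Finite K := inferInstance
  set pb := Field.powerBasisOfFiniteOfSeparable (ZMod 2) K with hpb
  have hdim : pb.dim = r := by
    rw [← pb.finrank, GaloisField.finrank 2 hr.ne']
  obtain ⟨f, hf, hf2⟩ := ph_surj pb (pb.gen ^ pb.dim)
  refine ⟨f, by omega, ?_⟩
  rw [← hdim]
  exact (noZD_iff pb (by omega) hf2.symm).2 inferInstance

/-- The ring described by a list. -/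
theorem exists_ring {r : ℕ} (hr : 0 < r) {f : List Bool} (hf : f.length = r) :
    ∃ (A : Type) (_ : CommRing A) (_ : Algebra (ZMod 2) A) (pb : PowerBasis (ZMod 2) A),
      pb.dim = r ∧ pb.gen ^ r = ph pb.gen r f := by
  classical
  have : Fact (Nat.Prime 2) := ⟨Nat.prime_two⟩
  set q : Polynomial (ZMod 2) := Polynomial.X ^ r +
    ∑ i ∈ Finset.range r, if f.getD i false then Polynomial.X ^ i else 0 with hq
  have hdeg : (∑ i ∈ Finset.range r, if f.getD i false then (Polynomial.X : Polynomial (ZMod 2)) ^ i
      else 0).degree < r := by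
    refine lt_of_le_of_lt (Polynomial.degree_sum_le _ _) ((Finset.sup_lt_iff
      (WithBot.bot_lt_coe r)).2 ?_)
    intro i hi
    rw [Finset.mem_range] at hi
    split_ifs
    · rw [Polynomial.degree_X_pow]
      exact Nat.cast_lt.2 hi
    · rw [Polynomial.degree_zero]
      exact WithBot.bot_lt_coe r
  have hmon : q.Monic := Polynomial.monic_X_pow_add hdeg
  have hnd : q.natDegree = r := by
    rw [hq, Polynomial.natDegree_add_eq_left_of_degree_lt, Polynomial.natDegree_X_pow]
    rwa [Polynomial.degree_X_pow]
  refine ⟨AdjoinRoot q, inferInstance, inferInstance, AdjoinRoot.powerBasis' hmon, ?_, ?_⟩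
  · rw [AdjoinRoot.powerBasis'_dim, hnd]
  · rw [AdjoinRoot.powerBasis'_gen]
    have h1 : (AdjoinRoot.mk q) q = 0 := AdjoinRoot.mk_self
    have h2 : (AdjoinRoot.root q) ^ r + ph (AdjoinRoot.root q) r f = 0 := by
      conv at h1 =>
        lhs
        arg 2
        rw [hq]
      rw [map_add, map_pow, AdjoinRoot.mk_X, map_sum] at h1
      unfold ph
      refine Eq.trans ?_ h1
      congr 1
      refine Finset.sum_congr rfl fun i _ => ?_
      split_ifs
      · rw [map_pow, AdjoinRoot.mk_X]
      · rw [map_zero]
    have h3 : ph (AdjoinRoot.root q) r f + ph (AdjoinRoot.root q) r f = 0 := by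
      rw [← two_mul, two_eq_zero, zero_mul]
    calc (AdjoinRoot.root q) ^ r = (AdjoinRoot.root q) ^ r + (ph (AdjoinRoot.root q) r f +
        ph (AdjoinRoot.root q) r f) := by rw [h3, add_zero]
      _ = ph (AdjoinRoot.root q) r f := by rw [← add_assoc, h2, zero_add]

end Pool.Agent.Helper70K1.PP
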