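import Pool.Agent.Helper70K1.PP.Bias

/-!
# Hashing and the exclusion of candidates
-/

set_option autoImplicit false

namespace Pool.Agent.Helper70K1.PP

open Finset

section

variable {A : Type} [CommRing A] [IsDomain A] [Fintype A] [DecidableEq A]

/-- A nonzero linear form vanishes rarely. -/
theorem ker_card {c : ℕ} {d : Fin c → A} (hd : d ≠ 0) :
    Fintype.card A * (univ.filter fun x : Fin c → A => ∑ k, x k * d k = 0).card ≤
      Fintype.card A ^ c := by
  obtain ⟨k, hk⟩ := Function.ne_iff.1 hd
  simp only [Pi.zero_apply] at hk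
  have h1 : Fintype.card A ^ c = (univ : Finset (Fin c → A)).card := by
    rw [Finset.card_univ, Fintype.card_fun, Fintype.card_fin]
  rw [h1, ← Finset.card_univ, ← Finset.card_product]
  refine Finset.card_le_card_of_injOn (fun p => Function.update p.2 k (p.2 k + p.1))
    (fun p _ => Finset.mem_coe.2 (Finset.mem_univ _)) ?_
  have key : ∀ p : A × (Fin c → A), (∑ i, p.2 i * d i = 0) →
      ∑ i, (Function.update p.2 k (p.2 k + p.1)) i * d i = p.1 * d k := by
    intro p hp
    have h2 : ∀ i, (Function.update p.2 k (p.2 k + p.1)) i * d i =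
        p.2 i * d i + if i = k then p.1 * d k else 0 := by
      intro i
      by_cases hi : i = k
      · subst hi
        rw [Function.update_self, if_pos rfl, add_mul]
      · rw [Function.update_of_ne hi, if_neg hi, add_zero]
    rw [Finset.sum_congr rfl fun i _ => h2 i, Finset.sum_add_distrib, hp, zero_add,
      Finset.sum_ite_eq' univ k, if_pos (Finset.mem_univ _)]
  intro p hp q hq hpq
  simp only [Finset.coe_product, Set.mem_prod, Finset.mem_coe, Finset.mem_filter,
    Finset.mem_univ, true_and] at hp hq hpq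
  have h3 : p.1 = q.1 := by
    have h4 := key p hp
    rw [hpq, key q hq] at h4
    exact (mul_right_cancel₀ hk h4).symm
  refine Prod.ext h3 (funext fun i => ?_)
  by_cases hi : i = k
  · subst hi
    have h5 := congrFun hpq i
    rw [Function.update_self, Function.update_self, h3] at h5
    exact add_right_cancel h5
  · have h5 := congrFun hpq i
    rwa [Function.update_of_ne hi, Function.update_of_ne hi] at h5

/-- Good hash functions exist. -/
theorem exists_hash {ι : Type} {c : ℕ} (V : Finset ι) (vv : ι → Fin c → A)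
    (hinj : ∀ u ∈ V, ∀ v ∈ V, vv u = vv v → u = v) :
    ∃ x y : Fin c → A, Fintype.card A ^ 2 * ((V ×ˢ V).filter fun p =>
      (∑ k, x k * vv p.1 k = ∑ k, x k * vv p.2 k) ∧
        ∑ k, y k * vv p.1 k = ∑ k, y k * vv p.2 k).card ≤
      Fintype.card A ^ 2 * V.card + V.card ^ 2 := by
  classical
  set Q := Fintype.card A with hQ
  set co : (Fin c → A) × (Fin c → A) → ι × ι → Prop := fun z p =>
    (∑ k, z.1 k * vv p.1 k = ∑ k, z.1 k * vv p.2 k) ∧
      ∑ k, z.2 k * vv p.1 k = ∑ k, z.2 k * vv p.2 k with hco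
  have hΩ : (univ : Finset ((Fin c → A) × (Fin c → A))).card = Q ^ (2 * c) := by
    rw [Finset.card_univ, Fintype.card_prod, Fintype.card_fun, Fintype.card_fin, ← hQ, ← pow_add,
      two_mul]
  have h1 : ∀ p ∈ V ×ˢ V, Q ^ 2 * (univ.filter fun z => co z p).card ≤
      Q ^ (2 * c) + if p.1 = p.2 then Q ^ 2 * Q ^ (2 * c) else 0 := by
    rintro ⟨u, v⟩ hp
    rw [Finset.mem_product] at hp
    by_cases huv : u = v
    · simp only [huv, if_true]
      refine le_add_left ?_
      refine Nat.mul_le_mul_left _ ?_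
      rw [← hΩ]
      exact Finset.card_le_card (Finset.filter_subset _ _)
    · rw [if_neg huv, add_zero]
      set d : Fin c → A := fun k => vv u k - vv v k with hd
      have hd0 : d ≠ 0 := by
        intro h
        refine huv (hinj u hp.1 v hp.2 (funext fun k => ?_))
        have := congrFun h k
        simp only [hd, Pi.zero_apply] at this
        exact sub_eq_zero.1 this
      have h2 : ∀ x : Fin c → A, (∑ k, x k * vv u k = ∑ k, x k * vv v k) ↔ ∑ k, x k * d k = 0 := by
        intro x
        rw [← sub_eq_zero, ← Finset.sum_sub_distrib]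
        simp only [hd, mul_sub]
      have h3 : (univ.filter fun z => co z (u, v)) =
          (univ.filter fun x : Fin c → A => ∑ k, x k * d k = 0) ×ˢ
            (univ.filter fun x : Fin c → A => ∑ k, x k * d k = 0) := by
        ext z
        simp only [hco, Finset.mem_filter, Finset.mem_univ, true_and, Finset.mem_product, h2]
      rw [h3, Finset.card_product]
      have h4 := ker_card hd0
      calc Q ^ 2 * _ = (Q * (univ.filter fun x : Fin c → A => ∑ k, x k * d k = 0).card) *
            (Q * (univ.filter fun x : Fin c → A => ∑ k, x k * d k = 0).card) := by ring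
        _ ≤ Q ^ c * Q ^ c := Nat.mul_le_mul h4 h4
        _ = Q ^ (2 * c) := by rw [← pow_add, two_mul]
  have h2 : ∑ z : (Fin c → A) × (Fin c → A), Q ^ 2 * ((V ×ˢ V).filter fun p => co z p).card ≤
      ∑ z : (Fin c → A) × (Fin c → A), (Q ^ 2 * V.card + V.card ^ 2) := by
    rw [← Finset.mul_sum]
    have h3 : ∑ z : (Fin c → A) × (Fin c → A), ((V ×ˢ V).filter fun p => co z p).card =
        ∑ p ∈ V ×ˢ V, (univ.filter fun z => co z p).card := by
      simp only [Finset.card_filter]
      exact Finset.sum_comm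
    rw [h3, Finset.mul_sum]
    refine (Finset.sum_le_sum h1).trans ?_
    rw [Finset.sum_add_distrib, Finset.sum_const, Finset.card_product, ← Finset.sum_filter,
      Finset.sum_const, Finset.sum_const, hΩ]
    have h4 : ((V ×ˢ V).filter fun p : ι × ι => p.1 = p.2).card ≤ V.card := by
      refine Finset.card_le_card_of_injOn Prod.fst (fun p hp => ?_) (fun p hp q hq hpq => ?_)
      · simp only [Finset.coe_filter, Finset.mem_product, Set.mem_ofPred_eq] at hp
        exact Finset.mem_coe.2 hp.1.1
      · simp only [Finset.coe_filter, Finset.mem_product, Set.mem_ofPred_eq] at hp hq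
        exact Prod.ext hpq (by rw [← hp.2, ← hq.2]; exact hpq)
    simp only [smul_eq_mul]
    nlinarith [Nat.mul_le_mul_right (Q ^ 2 * Q ^ (2 * c)) h4]
  obtain ⟨z, _, hz⟩ := Finset.exists_le_of_sum_le ⟨(0, 0), Finset.mem_univ _⟩ h2
  exact ⟨z.1, z.2, hz⟩

end

/-- Sums over candidates. -/
theorem sum_le_of_coll {ι D : Type} [Fintype D] [DecidableEq D] [Nonempty D] (V : Finset ι)
    (h : ι → D) (hcoll : (Fintype.card D : ℝ) * ((V ×ˢ V).filter fun p => h p.1 = h p.2).card ≤
      Fintype.card D * V.card + (V.card : ℝ) ^ 2) (F : D → ℝ) (hF : ∀ d, F d ^ 2 ≤ 1) {B : ℝ}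
    (hB : ∑ d, F d ≤ B) :
    ∑ v ∈ V, F (h v) ≤ V.card * B / Fintype.card D + Real.sqrt (Fintype.card D * V.card) := by
  classical
  set n : ℝ := (Fintype.card D : ℝ) with hn
  have hn0 : 0 < n := by
    rw [hn]
    exact_mod_cast Fintype.card_pos
  set X : D → ℝ := fun d => ((V.filter fun v => h v = d).card : ℝ) with hX
  have h1 : ∑ v ∈ V, F (h v) = ∑ d, X d * F d := by
    rw [← Finset.sum_fiberwise (s := V) (g := h) (f := fun v => F (h v))]
    refine Finset.sum_congr rfl fun d _ => ?_
    rw [Finset.sum_congr rfl (g := fun _ => F d), Finset.sum_const, nsmul_eq_mul]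
    intro v hv
    rw [(Finset.mem_filter.1 hv).2]
  have h2 : ∑ d, X d = V.card := by
    rw [Finset.card_eq_sum_card_fiberwise (f := h) (t := univ) fun v _ => Finset.mem_coe.2 (Finset.mem_univ _)]
    push_cast
    rfl
  have h3 : (((V ×ˢ V).filter fun p => h p.1 = h p.2).card : ℝ) = ∑ d, X d ^ 2 := by
    have h4 : ((V ×ˢ V).filter fun p => h p.1 = h p.2).card =
        ∑ d : D, (V.filter fun v => h v = d).card * (V.filter fun v => h v = d).card := by
      rw [Finset.card_eq_sum_card_fiberwise (f := fun p : ι × ι => h p.1) (t := univ)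
        fun v _ => Finset.mem_coe.2 (Finset.mem_univ _)]
      refine Finset.sum_congr rfl fun d _ => ?_
      rw [← Finset.card_product]
      congr 1
      ext p
      simp only [Finset.mem_filter, Finset.mem_product]
      constructor
      · rintro ⟨⟨⟨h5, h6⟩, h7⟩, h8⟩
        exact ⟨⟨h5, h8⟩, h6, by rw [← h7]; exact h8⟩
      · rintro ⟨⟨h5, h8⟩, h6, h7⟩
        exact ⟨⟨⟨h5, h6⟩, by rw [h8, h7]⟩, h8⟩
    rw [h4]
    push_cast
    refine Finset.sum_congr rfl fun d _ => ?_
    rw [hX, sq]
  set μ : ℝ := V.card / n with hμ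
  have h5 : ∑ d, (X d - μ) ^ 2 ≤ V.card := by
    have h6 : ∑ d, (X d - μ) ^ 2 = ∑ d, X d ^ 2 - 2 * μ * V.card + n * μ ^ 2 := by
      have : ∀ d, (X d - μ) ^ 2 = X d ^ 2 - 2 * μ * X d + μ ^ 2 := fun d => by ring
      rw [Finset.sum_congr rfl fun d _ => this d, Finset.sum_add_distrib, Finset.sum_sub_distrib,
        ← Finset.mul_sum, h2, Finset.sum_const, Finset.card_univ, nsmul_eq_mul]
    rw [h6, ← h3]
    have h7 : n * μ = V.card := by rw [hμ]; field_simp
    have h8 : n * ((((V ×ˢ V).filter fun p => h p.1 = h p.2).card : ℝ) - 2 * μ * V.card +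
        n * μ ^ 2) ≤ n * V.card := by
      have : n * ((((V ×ˢ V).filter fun p => h p.1 = h p.2).card : ℝ) - 2 * μ * V.card +
        n * μ ^ 2) = n * (((V ×ˢ V).filter fun p => h p.1 = h p.2).card : ℝ) -
          2 * (n * μ) * V.card + (n * μ) ^ 2 := by ring
      rw [this, h7]
      nlinarith
    exact le_of_mul_le_mul_left h8 hn0
  have h9 : (∑ d, (X d - μ) * F d) ^ 2 ≤ n * V.card := by
    refine (Finset.sum_mul_sq_le_sq_mul_sq _ _ _).trans ?_
    have h10 : ∑ d, F d ^ 2 ≤ n := by
      refine (Finset.sum_le_sum fun d _ => hF d).trans ?_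
      rw [Finset.sum_const, Finset.card_univ, nsmul_eq_mul, mul_one]
    have h11 : 0 ≤ ∑ d, F d ^ 2 := Finset.sum_nonneg fun d _ => sq_nonneg _
    have h12 : 0 ≤ ∑ d, (X d - μ) ^ 2 := Finset.sum_nonneg fun d _ => sq_nonneg _
    nlinarith [mul_le_mul h5 h10 h11 (by positivity)]
  have h13 : ∑ d, (X d - μ) * F d ≤ Real.sqrt (n * V.card) :=
    Real.le_sqrt_of_sq_le h9
  have h14 : ∑ d, X d * F d = ∑ d, (X d - μ) * F d + μ * ∑ d, F d := by
    rw [Finset.mul_sum, ← Finset.sum_add_distrib]
    exact Finset.sum_congr rfl fun d _ => by ring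
  rw [h1, h14, add_comm]
  refine add_le_add ?_ h13
  have h15 : 0 ≤ μ := by positivity
  calc μ * ∑ d, F d ≤ μ * B := mul_le_mul_of_nonneg_left hB h15
    _ = V.card * B / n := by rw [hμ]; ring

end Pool.Agent.Helper70K1.PP
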