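import Pool.Agent.Helper70K1.PP.Excl

/-!
# Pruning lists of candidates with parity statements
-/

set_option autoImplicit false

namespace Pool.Agent.Helper70K1.PP

open Pool.Agent.NPC
open Pool.Agent.Helper70K1.SP (tb tb_eq hsh hsh_spec nodup_ext)

/-- All entries are `false`. -/
def allF (l : List Bool) : Bool := l.all fun t => !t

theorem allF_iff {l : List Bool} : allF l = true ↔ ∀ t ∈ l, t = false := by
  simp [allF]

/-- The multiplication has no zero divisors. -/
def zdOK (r : ℕ) (f : List Bool) : Bool :=
  (List.range (2 ^ r)).all fun a => (List.range (2 ^ r)).all fun b =>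
    !(allF (mul r f (blk r 0 a) (blk r 0 b))) || (allF (blk r 0 a) || allF (blk r 0 b))

theorem exists_blk_zero {r : ℕ} (hr : 0 < r) {a : List Bool} (ha : a.length = r) :
    ∃ t < 2 ^ r, blk r 0 t = a := by
  obtain ⟨t, ht, h⟩ := exists_blk (n := 1) hr (fun _ => a) fun _ _ => ha
  exact ⟨t, by simpa using ht, h 0 (by norm_num)⟩

theorem zdOK_iff {r : ℕ} (hr : 0 < r) (f : List Bool) : zdOK r f = true ↔ NoZD r f := by
  unfold zdOK NoZD
  rw [List.all_eq_true]
  constructor
  · intro h a b ha hb hab
    obtain ⟨s, hs, rfl⟩ := exists_blk_zero hr ha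
    obtain ⟨t, ht, rfl⟩ := exists_blk_zero hr hb
    have h1 := h s (List.mem_range.2 hs)
    rw [List.all_eq_true] at h1
    have h2 := h1 t (List.mem_range.2 ht)
    rw [Bool.or_eq_true, Bool.or_eq_true, Bool.not_eq_true', ← Bool.not_eq_true, allF_iff,
      allF_iff, allF_iff] at h2
    rcases h2 with h2 | h2
    · exact absurd hab h2
    · exact h2
  · intro h s _
    rw [List.all_eq_true]
    intro t _
    rw [Bool.or_eq_true, Bool.or_eq_true, Bool.not_eq_true', ← Bool.not_eq_true, allF_iff,
      allF_iff, allF_iff]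
    by_cases h1 : ∀ z ∈ mul r f (blk r 0 s) (blk r 0 t), z = false
    · exact Or.inr (h _ _ (blk_length _ _ _) (blk_length _ _ _) h1)
    · exact Or.inl h1

theorem headD_mem {α : Type} {l : List α} {x : α} (d : α) (h : x ∈ l) : (l.head?).getD d ∈ l := by
  cases l with
  | nil => simp at h
  | cons a l => simp

/-- The first list that describes a field. -/
def findF (r : ℕ) : List Bool :=
  ((((List.range (2 ^ r)).map (blk r 0)).filter (zdOK r)).head?).getD []

theorem findF_spec {r : ℕ} (hr : 0 < r) : (findF r).length = r ∧ NoZD r (findF r) := by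
  obtain ⟨f, hf, hz⟩ := exists_noZD hr
  obtain ⟨t, ht, rfl⟩ := exists_blk_zero hr hf
  set l := ((List.range (2 ^ r)).map (blk r 0)).filter (zdOK r) with hl
  have h1 : blk r 0 t ∈ l := by
    rw [hl, List.mem_filter, List.mem_map]
    exact ⟨⟨t, List.mem_range.2 ht, rfl⟩, (zdOK_iff hr _).2 hz⟩
  have h2 : findF r ∈ l := headD_mem _ h1
  rw [hl, List.mem_filter, List.mem_map] at h2
  obtain ⟨⟨s, _, hs⟩, h3⟩ := h2
  exact ⟨by rw [← hs]; simp, (zdOK_iff hr _).1 h3⟩

/-- The number of collisions in a list. -/
def collL (r : ℕ) (f : List Bool) (c t : ℕ) (us : List ℕ) : ℕ :=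
  (us.map fun u => (us.filter fun v => decide (key r f c t u = key r f c t v)).length).sum

theorem collL_eq {r : ℕ} {f : List Bool} {c t : ℕ} {us : List ℕ} (h : us.Nodup) :
    collL r f c t us = coll r f c t us.toFinset := by
  unfold collL coll
  rw [Finset.card_filter, Finset.sum_product, List.sum_toFinset _ h]
  congr 1
  refine List.map_congr_left fun u _ => ?_
  simp only
  rw [← Finset.card_filter, ← List.toFinset_card_of_nodup (h.filter _), List.toFinset_filter]
  congr 1
  refine Finset.filter_congr fun v _ => ?_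
  simp

/-- The first good hash function. -/
def findT (r : ℕ) (f : List Bool) (c : ℕ) (us : List ℕ) : ℕ :=
  (((List.range (2 ^ (r * (2 * c)))).filter fun t => decide (4 ^ r * collL r f c t us ≤
    4 ^ r * us.length + us.length ^ 2)).head?).getD 0

theorem findT_lt {r : ℕ} {f : List Bool} {c : ℕ} {us : List ℕ} :
    findT r f c us < 2 ^ (r * (2 * c)) := by
  unfold findT
  cases h : (List.range (2 ^ (r * (2 * c)))).filter fun t => decide (4 ^ r * collL r f c t us ≤
    4 ^ r * us.length + us.length ^ 2) with
  | nil => simp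
  | cons a l =>
    have h1 : a ∈ (List.range (2 ^ (r * (2 * c)))).filter fun t => decide (4 ^ r *
        collL r f c t us ≤ 4 ^ r * us.length + us.length ^ 2) := by rw [h]; exact List.mem_cons_self
    rw [List.mem_filter, List.mem_range] at h1
    simpa using h1.1

theorem findT_spec {r c : ℕ} (hr : 0 < r) (hc : 0 < c) {f : List Bool} (hf : f.length = r)
    (hz : NoZD r f) {us : List ℕ} (hus : us.Nodup) (hlt : ∀ u ∈ us, u < 2 ^ (r * c)) :
    4 ^ r * coll r f c (findT r f c us) us.toFinset ≤
      4 ^ r * us.toFinset.card + us.toFinset.card ^ 2 := by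
  obtain ⟨t, ht, h⟩ := exists_t hr hc hf hz us.toFinset fun u hu => hlt u (List.mem_toFinset.1 hu)
  rw [← collL_eq hus, List.toFinset_card_of_nodup hus] at h ⊢
  set l := (List.range (2 ^ (r * (2 * c)))).filter fun t => decide (4 ^ r * collL r f c t us ≤
    4 ^ r * us.length + us.length ^ 2) with hl
  have h1 : t ∈ l := by
    rw [hl, List.mem_filter]
    exact ⟨List.mem_range.2 ht, by simpa using h⟩
  have h2 : findT r f c us ∈ l := headD_mem _ h1
  rw [hl, List.mem_filter] at h2
  simpa using h2.2

/-- The number of blocks. -/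
def cc : ℕ := 24

/-- One pruning step. -/
def prP (g : List Bool → List (List Bool × Bool)) (qb : ℕ → ℕ → ℕ → ℕ → List Bool)
    (M N r : ℕ) (f : List Bool) (j : ℕ) (A : List ℕ) : List ℕ :=
  if A.length ≤ N then A else
    A.filter fun v => decide ((M + 2) * (g (bits ((List.range M).map (qb j (hsh (r * cc) A)
      (findT r f cc (A.map fun v => v % hsh (r * cc) A)))))).length ≤
      2 * M * cor (g (bits ((List.range M).map (qb j (hsh (r * cc) A)
        (findT r f cc (A.map fun v => v % hsh (r * cc) A))))))
        (word M r f cc (findT r f cc (A.map fun v => v % hsh (r * cc) A)) (v % hsh (r * cc) A)))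

/-- One more bit. -/
def stepP (g : List Bool → List (List Bool × Bool)) (qb : ℕ → ℕ → ℕ → ℕ → List Bool)
    (M N r : ℕ) (f : List Bool) (j : ℕ) (A : List ℕ) : List ℕ :=
  ((prP g qb M N r f (j + 1))^[2 * N] (A ++ A.map fun v => v + 2 ^ j)).take N

/-- The candidates for the first `j` bits. -/
def listP (g : List Bool → List (List Bool × Bool)) (qb : ℕ → ℕ → ℕ → ℕ → List Bool)
    (M N r : ℕ) (f : List Bool) : ℕ → List ℕ
  | 0 => [0]
  | j + 1 => stepP g qb M N r f j (listP g qb M N r f j)

section

variable {g : List Bool → List (List Bool × Bool)} {qb : ℕ → ℕ → ℕ → ℕ → List Bool}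
  {M N r : ℕ} {f : List Bool}

theorem prP_sublist (j : ℕ) (A : List ℕ) : (prP g qb M N r f j A).Sublist A := by
  unfold prP
  split_ifs
  · exact List.Sublist.refl _
  · exact List.filter_sublist

theorem prP_iter_sublist (j : ℕ) (A : List ℕ) : ∀ n, ((prP g qb M N r f j)^[n] A).Sublist A
  | 0 => List.Sublist.refl _
  | n + 1 => by
    rw [Function.iterate_succ_apply']
    exact (prP_sublist _ _).trans (prP_iter_sublist j A n)

theorem listP_lt : ∀ (j : ℕ), ∀ v ∈ listP g qb M N r f j, v < 2 ^ j
  | 0, v, hv => by
    simp only [listP, List.mem_singleton] at hv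
    simp [hv]
  | j + 1, v, hv => by
    rw [listP, stepP] at hv
    have h1 := (prP_iter_sublist _ _ _).subset (List.mem_of_mem_take hv)
    rw [List.mem_append, List.mem_map] at h1
    rw [pow_succ]
    rcases h1 with h | ⟨u, h, rfl⟩
    · have := listP_lt j v h
      omega
    · have := listP_lt j u h
      omega

theorem nodup_listP : ∀ j : ℕ, (listP g qb M N r f j).Nodup
  | 0 => by simp [listP]
  | j + 1 => by
    rw [listP, stepP]
    exact (((nodup_ext (nodup_listP j) (listP_lt j)).sublist (prP_iter_sublist _ _ _))).sublist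
      (List.take_sublist _ _)

theorem length_listP (hN : 0 < N) : ∀ j, (listP g qb M N r f j).length ≤ N
  | 0 => by simp [listP]; omega
  | j + 1 => by
    rw [listP, stepP, List.length_take]
    exact min_le_left _ _

/-- The answers for all queries are good. -/
def GoodG (g : List Bool → List (List Bool × Bool)) (M : ℕ) (qs : List (List Bool)) : Prop :=
  g (bits qs) ≠ [] ∧ ∀ e ∈ g (bits qs), e.1.length = M ∧ true ∈ e.1

/-- Pruning makes long lists shorter. -/
theorem prP_length_lt {A : List ℕ} {j μ : ℕ} (hr : 0 < r) (hf : f.length = r) (hz : NoZD r f)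
    (hA : A.Nodup) (hlt : ∀ v ∈ A, v < 2 ^ j) (hN : A.length ≤ 2 * N) (hN2 : N < A.length)
    (hj : j ≤ μ) (hl : 2 * (2 * N * (2 * N) * μ + 1 + 4) ^ 2 + 1 ≤ 2 ^ (r * cc))
    (hM : 2 * M ^ 2 ≤ 2 ^ r) (hNM : M ^ 2 * 4 ^ r ≤ N)
    (hg : ∀ q < 2 ^ (r * cc), ∀ t < 2 ^ (r * (2 * cc)),
      GoodG g M ((List.range M).map (qb j q t))) :
    (prP g qb M N r f j A).length < A.length := by
  obtain ⟨h1, h2, h3⟩ := hsh_spec (l := r * cc) hlt hN (by
    refine le_trans ?_ hl
    have : 2 * N * (2 * N) * j ≤ 2 * N * (2 * N) * μ := Nat.mul_le_mul_left _ hj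
    gcongr)
  set q := hsh (r * cc) A with hq
  set us := A.map fun v => v % q with hus
  have hnd : us.Nodup := by
    rw [hus, List.nodup_map_iff_inj_on hA]
    exact h3
  have hult : ∀ u ∈ us, u < 2 ^ (r * cc) := by
    intro u hu
    obtain ⟨v, _, rfl⟩ := List.mem_map.1 hu
    exact (Nat.mod_lt _ h1).trans h2
  set t := findT r f cc us with ht
  have ht2 := findT_spec hr (c := cc) (by decide) hf hz hnd hult
  obtain ⟨hE1, hE2⟩ := hg q h2 t findT_lt
  set E := g (bits ((List.range M).map (qb j q t))) with hE
  have hcard : us.toFinset.card = A.length := by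
    rw [List.toFinset_card_of_nodup hnd, hus, List.length_map]
  obtain ⟨u, hu, hlt2⟩ := exclude hr (c := cc) (by decide) hf hz us.toFinset ht2 hM
    (by rw [hcard]; omega) hE1 hE2
  rw [List.mem_toFinset, hus, List.mem_map] at hu
  obtain ⟨v, hv, rfl⟩ := hu
  unfold prP
  rw [if_neg (by omega)]
  simp only [← hq, ← hus, ← ht, ← hE]
  refine List.length_filter_lt_length_iff_exists.2 ⟨v, hv, ?_⟩
  simpa using hlt2

theorem iter_length {A : List ℕ} {j μ : ℕ} (hr : 0 < r) (hf : f.length = r) (hz : NoZD r f)
    (hA : A.Nodup) (hlt : ∀ v ∈ A, v < 2 ^ j) (hN : A.length ≤ 2 * N)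
    (hj : j ≤ μ) (hl : 2 * (2 * N * (2 * N) * μ + 1 + 4) ^ 2 + 1 ≤ 2 ^ (r * cc))
    (hM : 2 * M ^ 2 ≤ 2 ^ r) (hNM : M ^ 2 * 4 ^ r ≤ N)
    (hg : ∀ q < 2 ^ (r * cc), ∀ t < 2 ^ (r * (2 * cc)),
      GoodG g M ((List.range M).map (qb j q t))) (n : ℕ) :
    ((prP g qb M N r f j)^[n] A).length ≤ N ∨ ((prP g qb M N r f j)^[n] A).length + n ≤ A.length := by
  induction n with
  | zero => exact Or.inr (by simp)
  | succ n ih =>
    rw [Function.iterate_succ_apply']
    set B := (prP g qb M N r f j)^[n] A with hB
    have hs : B.Sublist A := prP_iter_sublist _ _ _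
    have h1 : (prP g qb M N r f j B).length ≤ B.length := (prP_sublist j B).length_le
    by_cases h2 : B.length ≤ N
    · exact Or.inl (h1.trans h2)
    · rcases ih with ih | ih
      · exact absurd ih h2
      · right
        have h3 := prP_length_lt (g := g) (qb := qb) (A := B) hr hf hz (hA.sublist hs)
          (fun v hv => hlt v (hs.subset hv)) (hs.length_le.trans hN) (by omega) hj hl hM hNM hg
        omega

/-- The true value is among the candidates. -/
theorem mem_listP {L : Set (List Bool)} [∀ x, Decidable (x ∈ L)] {V μ : ℕ}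
    (hr : 0 < r) (hf : f.length = r) (hz : NoZD r f)
    (hl : 2 * (2 * N * (2 * N) * μ + 1 + 4) ^ 2 + 1 ≤ 2 ^ (r * cc))
    (hM : 2 * M ^ 2 ≤ 2 ^ r) (hNM : M ^ 2 * 4 ^ r ≤ N) (hN0 : 0 < N)
    (hq : ∀ j q t i, i < M → (qb j q t i ∈ L ↔
      wd r f (hh r f cc t 0 (V % 2 ^ j % q)) (hh r f cc t cc (V % 2 ^ j % q)) i = true))
    (hg : ∀ j ≤ μ, ∀ q < 2 ^ (r * cc), ∀ t < 2 ^ (r * (2 * cc)),
      GoodG g M ((List.range M).map (qb j q t)) ∧
        (M + 2) * (g (bits ((List.range M).map (qb j q t)))).length ≤
          2 * M * cor (g (bits ((List.range M).map (qb j q t))))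
            (((List.range M).map (qb j q t)).map fun x => decide (x ∈ L))) :
    ∀ j ≤ μ, V % 2 ^ j ∈ listP g qb M N r f j
  | 0, _ => by simp [listP, Nat.mod_one]
  | j + 1, hj => by
    have ih := mem_listP hr hf hz hl hM hNM hN0 hq hg j (by omega)
    set A := listP g qb M N r f j ++ (listP g qb M N r f j).map fun v => v + 2 ^ j with hA
    have hmem : V % 2 ^ (j + 1) ∈ A := by
      rw [hA, List.mem_append, List.mem_map]
      have h1 : V % 2 ^ (j + 1) = V % 2 ^ j + 2 ^ j * (V / 2 ^ j % 2) := Nat.mod_pow_succ
      rcases Nat.mod_two_eq_zero_or_one (V / 2 ^ j) with h2 | h2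
      · left
        rw [h1, h2]
        simpa using ih
      · right
        exact ⟨_, ih, by rw [h1, h2]; ring⟩
    have hnd : A.Nodup := nodup_ext (nodup_listP j) (listP_lt j)
    have hlen : A.length ≤ 2 * N := by
      have := length_listP (g := g) (qb := qb) (M := M) (r := r) (f := f) hN0 j
      rw [hA, List.length_append, List.length_map]
      omega
    have hlt : ∀ v ∈ A, v < 2 ^ (j + 1) := by
      intro v hv
      rw [hA, List.mem_append, List.mem_map] at hv
      rw [pow_succ]
      rcases hv with h | ⟨u, h, rfl⟩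
      · have := listP_lt j v h
        omega
      · have := listP_lt j u h
        omega
    -- one step keeps the true value
    have hkeep : ∀ B : List ℕ, V % 2 ^ (j + 1) ∈ B →
        V % 2 ^ (j + 1) ∈ prP g qb M N r f (j + 1) B := by
      intro B hB
      unfold prP
      split_ifs with hBN
      · exact hB
      · rw [List.mem_filter]
        refine ⟨hB, ?_⟩
        set q := hsh (r * cc) B with hq'
        set t := findT r f cc (B.map fun v => v % q) with ht
        have hqlt : q < 2 ^ (r * cc) := by
          rw [hq']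
          unfold hsh
          cases h4 : (List.range (2 ^ (r * cc))).filter fun h => decide (0 < h) && B.all fun u =>
            B.all fun v => decide (u = v) || !decide (u % h = v % h) with
          | nil => simp
          | cons a t' =>
            have h5 : a ∈ (List.range (2 ^ (r * cc))).filter fun h => decide (0 < h) && B.all
                fun u => B.all fun v => decide (u = v) || !decide (u % h = v % h) := by
              rw [h4]; exact List.mem_cons_self
            rw [List.mem_filter, List.mem_range] at h5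
            simpa using h5.1
        obtain ⟨_, h6⟩ := hg (j + 1) hj q hqlt t findT_lt
        have h7 : (((List.range M).map (qb (j + 1) q t)).map fun x => decide (x ∈ L)) =
            word M r f cc t (V % 2 ^ (j + 1) % q) := by
          unfold word vec
          rw [List.map_map]
          refine List.map_congr_left fun i hi => ?_
          rw [List.mem_range] at hi
          simp only [Function.comp]
          rw [Bool.eq_iff_iff, decide_eq_true_eq]
          exact hq _ _ _ _ hi
        rw [h7] at h6
        simpa using h6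
    have hiter : ∀ n, V % 2 ^ (j + 1) ∈ (prP g qb M N r f (j + 1))^[n] A := by
      intro n
      induction n with
      | zero => exact hmem
      | succ n ih =>
        rw [Function.iterate_succ_apply']
        exact hkeep _ ih
    rw [listP, stepP, ← hA]
    have h8 : ((prP g qb M N r f (j + 1))^[2 * N] A).length ≤ N := by
      rcases iter_length (g := g) (qb := qb) hr hf hz hnd hlt hlen hj hl hM hNM
        (fun q hq t ht => (hg (j + 1) hj q hq t ht).1) (2 * N) with h | h
      · exact h
      · omega
    rw [List.take_of_length_le h8]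
    exact hiter _

end

end Pool.Agent.Helper70K1.PP
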